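import Pool.Agent.helper46.PS.Defs

/-!
# MP_da66b4_nt: basic facts on the postage stamp function
-/

namespace PS

open Finset

theorem IsSum.mono {A : Finset ℕ} {h h' m : ℕ} (hh : h ≤ h') (hs : IsSum A h m) : IsSum A h' m := by
  obtain ⟨s, h1, h2, h3⟩ := hs
  exact ⟨s, h1, h2.trans hh, h3⟩

theorem IsBasis.mono {A : Finset ℕ} {h h' n : ℕ} (hh : h ≤ h') (hs : IsBasis h A n) :
    IsBasis h' A n := ⟨hs.1, fun m hm => (hs.2 m hm).mono hh⟩

theorem isSum_count {A : Finset ℕ} {h m : ℕ} (hs : IsSum A h m) :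
    ∃ c : A → Fin (h + 1), m = ∑ a : A, (c a : ℕ) * (a : ℕ) := by
  obtain ⟨s, h1, h2, h3⟩ := hs
  refine ⟨fun a => ⟨Multiset.count (a : ℕ) s, ?_⟩, ?_⟩
  · have := Multiset.count_le_card (a : ℕ) s
    omega
  · simp only
    rw [← h3, Finset.sum_coe_sort A (fun a => Multiset.count a s * a)]
    rw [Finset.sum_multiset_count_of_subset s A]
    · simp
    · intro x hx
      exact h1 x (by simpa using hx)

theorem isBasis_bound {A : Finset ℕ} {h n : ℕ} (hb : IsBasis h A n) : n + 1 ≤ (h + 1) ^ A.card := by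
  classical
  have h1 : Finset.range (n + 1) ⊆
      (Finset.univ : Finset (A → Fin (h + 1))).image (fun c => ∑ a : A, (c a : ℕ) * (a : ℕ)) := by
    intro m hm
    obtain ⟨c, hc⟩ := isSum_count (hb.2 m (by simpa [Nat.lt_succ_iff] using hm))
    exact Finset.mem_image.2 ⟨c, Finset.mem_univ _, hc.symm⟩
  have h2 := Finset.card_le_card h1
  rw [Finset.card_range] at h2
  refine h2.trans (Finset.card_image_le.trans ?_)
  simp

theorem nn_bddAbove (h k : ℕ) : BddAbove {n : ℕ | ∃ A : Finset ℕ, A.card = k ∧ IsBasis h A n} := by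
  refine ⟨(h + 1) ^ k, ?_⟩
  rintro n ⟨A, hA, hb⟩
  have := isBasis_bound hb
  rw [hA] at this
  omega

theorem nn_nonempty (h k : ℕ) : {n : ℕ | ∃ A : Finset ℕ, A.card = k ∧ IsBasis h A n}.Nonempty := by
  refine ⟨0, Finset.Icc 1 k, by simp, ?_, ?_⟩
  · intro a ha
    simp only [Finset.mem_Icc] at ha
    omega
  · intro m hm
    refine ⟨0, by simp, by simp, by simp; omega⟩

theorem nn_isGreatest (h k : ℕ) :
    IsGreatest {n : ℕ | ∃ A : Finset ℕ, A.card = k ∧ IsBasis h A n} (nn h k) :=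
  ⟨Nat.sSup_mem (nn_nonempty h k) (nn_bddAbove h k), fun _ hn => le_csSup (nn_bddAbove h k) hn⟩

theorem nn_spec (h k : ℕ) : ∃ A : Finset ℕ, A.card = k ∧ IsBasis h A (nn h k) :=
  (nn_isGreatest h k).1

theorem le_nn {h k n : ℕ} {A : Finset ℕ} (hA : A.card = k) (hb : IsBasis h A n) : n ≤ nn h k :=
  (nn_isGreatest h k).2 ⟨A, hA, hb⟩

theorem nn_mono {h h' k : ℕ} (hh : h ≤ h') : nn h k ≤ nn h' k := by
  obtain ⟨A, hA, hb⟩ := nn_spec h k
  exact le_nn hA (hb.mono hh)

theorem isSum_of_four {a b d h m x1 x2 x3 x4 : ℕ} (hs : x1 + x2 + x3 + x4 ≤ h)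
    (hm : x1 + a * x2 + b * x3 + d * x4 = m) : IsSum {1, a, b, d} h m := by
  refine ⟨Multiset.replicate x1 1 + Multiset.replicate x2 a + Multiset.replicate x3 b +
    Multiset.replicate x4 d, ?_, ?_, ?_⟩
  · intro x hx
    simp only [Multiset.mem_add, Multiset.mem_replicate] at hx
    simp only [Finset.mem_insert, Finset.mem_singleton]
    tauto
  · simpa using hs
  · simp only [Multiset.sum_add, Multiset.sum_replicate, smul_eq_mul]
    rw [← hm]
    ring

theorem four_of_isSum {a b d h m : ℕ} (hs : IsSum {1, a, b, d} h m) :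
    ∃ x1 x2 x3 x4 : ℕ, x1 + x2 + x3 + x4 ≤ h ∧ x1 + a * x2 + b * x3 + d * x4 = m := by
  obtain ⟨s, h1, h2, h3⟩ := hs
  have key : ∀ s : Multiset ℕ, (∀ x ∈ s, x ∈ ({1, a, b, d} : Finset ℕ)) →
      ∃ x1 x2 x3 x4 : ℕ, x1 + x2 + x3 + x4 = Multiset.card s ∧
        x1 + a * x2 + b * x3 + d * x4 = s.sum := by
    intro s
    induction s using Multiset.induction_on with
    | empty => intro _; exact ⟨0, 0, 0, 0, by simp, by simp⟩
    | cons y s ih =>
      intro hs
      obtain ⟨x1, x2, x3, x4, e1, e2⟩ := ih (fun x hx => hs x (Multiset.mem_cons_of_mem hx))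
      have hy := hs y (Multiset.mem_cons_self y s)
      simp only [Finset.mem_insert, Finset.mem_singleton] at hy
      rw [Multiset.card_cons, Multiset.sum_cons, ← e1, ← e2]
      rcases hy with rfl | rfl | rfl | rfl
      · exact ⟨x1 + 1, x2, x3, x4, by ring, by ring⟩
      · exact ⟨x1, x2 + 1, x3, x4, by ring, by ring⟩
      · exact ⟨x1, x2, x3 + 1, x4, by ring, by ring⟩
      · exact ⟨x1, x2, x3, x4 + 1, by ring, by ring⟩
  obtain ⟨x1, x2, x3, x4, e1, e2⟩ := key s h1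
  exact ⟨x1, x2, x3, x4, by omega, by omega⟩

end PS
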