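import Mathlib

/-!
# MP_da66b4_nt (postage stamp function), Q2: definitions

Project of helper93 and helper46.
-/

namespace PS

/-- `m` is a sum of at most `h` elements of `A` (repetitions allowed, the empty sum is `0`). -/
def IsSum (A : Finset ℕ) (h m : ℕ) : Prop :=
  ∃ s : Multiset ℕ, (∀ x ∈ s, x ∈ A) ∧ Multiset.card s ≤ h ∧ s.sum = m

/-- The finite set `A` of positive integers is an `h`-basis for `n`: every integer `0 ≤ m ≤ n` is a sum
of at most `h` elements of `A`. -/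
def IsBasis (h : ℕ) (A : Finset ℕ) (n : ℕ) : Prop :=
  (∀ a ∈ A, 0 < a) ∧ ∀ m : ℕ, m ≤ n → IsSum A h m

/-- The postage stamp function `n(h,k)`: the largest `n` for which some `h`-basis for `n` has exactly `k`
elements. -/
noncomputable def nn (h k : ℕ) : ℕ := sSup {n : ℕ | ∃ A : Finset ℕ, A.card = k ∧ IsBasis h A n}

/-- The simplex `{x ≥ 0, x₁ + x₂ + x₃ ≤ mu}` covers space modulo the lattice spanned by
`(al,0,0)`, `(s,rho,0)`, `(t,u,om)`. -/
def Covers (al s rho t u om mu : ℝ) : Prop :=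
  ∀ x y z : ℝ, ∃ i j k : ℤ,
    0 ≤ x - (i * al + j * s + k * t) ∧ 0 ≤ y - (j * rho + k * u) ∧ 0 ≤ z - k * om ∧
    (x - (i * al + j * s + k * t)) + (y - (j * rho + k * u)) + (z - k * om) ≤ mu

/-- `v` is the root of `12 v^3 - 69 v^2 + 18 v + 35` in `(0.95, 0.96)` -/
def IsV (v : ℝ) : Prop := 0.95 < v ∧ v < 0.96 ∧ 12 * v ^ 3 - 69 * v ^ 2 + 18 * v + 35 = 0

/-- the constant, as a function of `v` -/
noncomputable def cst (v : ℝ) : ℝ := (5 - 3 * v) * (7 - v) * (1 + v) * v / 3072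

end PS
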