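import Pool.Agent.helper46.PS.Defs

/-!
# MP_da66b4_nt: irrationality of the constant, and polynomials
-/

namespace PS

open Filter Topology Polynomial

theorem exists_isV : ∃ v : ℝ, IsV v := by
  have hcont : Continuous (fun v : ℝ => 12 * v ^ 3 - 69 * v ^ 2 + 18 * v + 35) := by fun_prop
  have h := intermediate_value_Ioo' (show (0.95 : ℝ) ≤ 0.96 by norm_num) hcont.continuousOn
  have h0 : (0 : ℝ) ∈ Set.Ioo ((fun v : ℝ => 12 * v ^ 3 - 69 * v ^ 2 + 18 * v + 35) 0.96)
      ((fun v : ℝ => 12 * v ^ 3 - 69 * v ^ 2 + 18 * v + 35) 0.95) := by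
    constructor <;> norm_num
  obtain ⟨v, hv, hv0⟩ := h h0
  exact ⟨v, hv.1, hv.2, hv0⟩

theorem isV_unique {v w : ℝ} (hv : IsV v) (hw : IsV w) : v = w := by
  obtain ⟨h1, h2, h3⟩ := hv
  obtain ⟨g1, g2, g3⟩ := hw
  have : (v - w) * (12 * (v ^ 2 + v * w + w ^ 2) - 69 * (v + w) + 18) = 0 := by ring_nf; linarith
  rcases mul_eq_zero.1 this with h | h
  · linarith
  · exfalso
    nlinarith

theorem isV_irrational {v : ℝ} (hv : IsV v) : Irrational v := by
  rintro ⟨x, hx⟩
  obtain ⟨h1, h2, h3⟩ := hv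
  rw [← hx] at h1 h2 h3
  have h3' : (12 * x ^ 3 - 69 * x ^ 2 + 18 * x + 35 : ℚ) = 0 := by exact_mod_cast h3
  have h1' : (0.95 : ℚ) < x := by
    have : ((0.95 : ℚ) : ℝ) < x := by push_cast; exact h1
    exact_mod_cast this
  have h2' : x < (0.96 : ℚ) := by
    have : (x : ℝ) < ((0.96 : ℚ) : ℝ) := by push_cast; exact h2
    exact_mod_cast this
  set y : ℚ := 12 * x with hy
  have hy0 : y ^ 3 - 69 * y ^ 2 + 216 * y + 5040 = 0 := by
    rw [hy]; linarith
  have hint : IsIntegral ℤ y := by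
    refine ⟨X ^ 3 + (C (-69) * X ^ 2 + C 216 * X + C 5040), ?_, ?_⟩
    · apply monic_X_pow_add
      compute_degree!
    · simp only [eval₂_add, eval₂_mul, eval₂_pow, eval₂_X, eval₂_C]
      simp only [algebraMap_int_eq, eq_intCast]
      push_cast
      linarith
  obtain ⟨n, hn⟩ := IsIntegrallyClosed.isIntegral_iff.1 hint
  simp only [algebraMap_int_eq, eq_intCast] at hn
  have a1 : (11 : ℚ) < n := by rw [hn, hy]; linarith
  have a2 : (n : ℚ) < 12 := by rw [hn, hy]; linarith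
  have a3 : 11 < n := by exact_mod_cast a1
  have a4 : n < 12 := by exact_mod_cast a2
  omega

theorem cst_irrational {v : ℝ} (hv : IsV v) : Irrational (cst v) := by
  rintro ⟨c, hc⟩
  have hirr := isV_irrational hv
  obtain ⟨h1, h2, h3⟩ := hv
  -- `3072 c = 3v⁴ - 23v³ + 9v² + 35v`
  set E : ℚ := 805 - 48 * 3072 * c with hE
  have hq : 1371 * v ^ 2 = 1674 * v + E := by
    have e1 : (3072 * c : ℝ) = 3 * v ^ 4 - 23 * v ^ 3 + 9 * v ^ 2 + 35 * v := by
      rw [hc, cst]; ring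
    have e2 : v ^ 3 = (69 * v ^ 2 - 18 * v - 35) / 12 := by linarith
    have e2' : v * v ^ 3 = v * ((69 * v ^ 2 - 18 * v - 35) / 12) := by rw [e2]
    have e3 : v ^ 4 = (69 * v ^ 3 - 18 * v ^ 2 - 35 * v) / 12 := by linarith
    rw [hE]
    push_cast
    rw [e3, e2] at e1
    linarith
  have hlin : (16452 * (E : ℝ) - 90897876) * v + (65787435 - 74511 * E) = 0 := by
    have e4 : v * (1371 * v ^ 2) = v * (1674 * v + E) := by rw [hq]
    have e5 : 1371 * v ^ 3 = 1674 * v ^ 2 + E * v := by linarith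
    have e6 : v ^ 3 = (69 * v ^ 2 - 18 * v - 35) / 12 := by linarith
    have e7 : v ^ 2 = (1674 * v + E) / 1371 := by linarith
    have e8 : 1371 * ((69 * ((1674 * v + E) / 1371) - 18 * v - 35) / 12) =
        1674 * ((1674 * v + E) / 1371) + E * v := by
      rw [← e7, ← e6]; exact e5
    linarith
  -- bound on `E`
  have hEneg : (E : ℝ) < 0 := by
    have e9 : (E : ℝ) = 1371 * v ^ 2 - 1674 * v := by linarith
    rw [e9]
    nlinarith
  have hA : (16452 * (E : ℝ) - 90897876) ≠ 0 := by linarith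
  apply hirr
  refine ⟨-(65787435 - 74511 * E) / (16452 * E - 90897876), ?_⟩
  push_cast
  rw [div_eq_iff hA]
  linarith

/-- a real polynomial with rational values at infinitely many natural numbers has rational coefficients -/
theorem exists_rat_poly (P : ℝ[X]) (F : ℕ → ℕ) (hinf : ∃ᶠ h : ℕ in atTop, (F h : ℝ) = P.eval (h : ℝ)) :
    ∃ Q : ℚ[X], Q.map (algebraMap ℚ ℝ) = P := by
  have hset : {h : ℕ | (F h : ℝ) = P.eval (h : ℝ)}.Infinite := by
    rw [Nat.frequently_atTop_iff_infinite] at hinf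
    exact hinf
  obtain ⟨s, hs, hcard⟩ := hset.exists_subset_card_eq (P.natDegree + 1)
  refine ⟨Lagrange.interpolate s (fun i : ℕ => (i : ℚ)) (fun i => (F i : ℚ)), ?_⟩
  have hinj : Set.InjOn (fun i : ℕ => (i : ℝ)) (s : Set ℕ) := fun x _ y _ h => by
    simpa using h
  have hinjq : Set.InjOn (fun i : ℕ => (i : ℚ)) (s : Set ℕ) := fun x _ y _ h => by
    simpa using h
  refine Polynomial.eq_of_degrees_lt_of_eval_index_eq s hinj ?_ ?_ ?_
  · rw [Polynomial.degree_map]
    exact Lagrange.degree_interpolate_lt _ hinjq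
  · rw [hcard]
    exact lt_of_le_of_lt Polynomial.degree_le_natDegree (by exact_mod_cast Nat.lt_succ_self _)
  · intro i hi
    have h1 : (i : ℝ) = algebraMap ℚ ℝ (i : ℚ) := by simp
    have h2 : (F i : ℝ) = P.eval (i : ℝ) := hs hi
    rw [← h2]
    rw [h1, Polynomial.eval_map_apply, Lagrange.eval_interpolate_at_node _ hinjq hi]
    simp

/-- If `F(h)/h^4` has an irrational limit, no finite set of real polynomials accounts for the values `F(h)`
with `h` large. -/
theorem no_poly {F : ℕ → ℕ} {c : ℝ} (hlim : Tendsto (fun h : ℕ => (F h : ℝ) / (h : ℝ) ^ 4) atTop (𝓝 c))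
    (hc : Irrational c) (S : Set ℝ[X]) (hS : S.Finite) :
    ∃ᶠ h : ℕ in atTop, ∀ P ∈ S, (F h : ℝ) ≠ P.eval (h : ℝ) := by
  intro hcon
  simp only [not_forall, not_not] at hcon
  -- some polynomial occurs infinitely often
  have hex : ∃ P ∈ S, ∃ᶠ h : ℕ in atTop, (F h : ℝ) = P.eval (h : ℝ) := by
    by_contra hno
    push Not at hno
    have : ∀ᶠ h : ℕ in atTop, ∀ P ∈ S, (F h : ℝ) ≠ P.eval (h : ℝ) := by
      rw [Filter.eventually_all_finite hS]
      intro P hP
      have := hno P hP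
      simpa [Filter.not_frequently] using this
    obtain ⟨h, hh, P, hP, hPe⟩ := (this.and hcon).exists
    exact hh P hP hPe
  obtain ⟨P, hPS, hfreq⟩ := hex
  obtain ⟨Q, hQ⟩ := exists_rat_poly P F hfreq
  -- the limit of `P(h)/h^4` along the set
  have : NeBot (atTop ⊓ 𝓟 {h : ℕ | (F h : ℝ) = P.eval (h : ℝ)}) := by
    rw [Filter.frequently_iff_neBot] at hfreq
    exact hfreq
  set l := (atTop ⊓ 𝓟 {h : ℕ | (F h : ℝ) = P.eval (h : ℝ)}) with hl
  have hlim1 : Tendsto (fun h : ℕ => P.eval (h : ℝ) / (h : ℝ) ^ 4) l (𝓝 c) := by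
    refine (hlim.mono_left inf_le_left).congr' ?_
    have : ∀ᶠ h in l, h ∈ {h : ℕ | (F h : ℝ) = P.eval (h : ℝ)} :=
      Filter.mem_inf_of_right (Filter.mem_principal_self _)
    filter_upwards [this] with h hh
    have hh' : (F h : ℝ) = P.eval (h : ℝ) := hh
    rw [hh']
  have hnat : Tendsto (fun h : ℕ => (h : ℝ)) l atTop :=
    tendsto_natCast_atTop_atTop.mono_left inf_le_left
  have hX : ∀ x : ℝ, (X ^ 4 : ℝ[X]).eval x = x ^ 4 := by intro x; simp
  
  rcases lt_trichotomy P.degree (X ^ 4 : ℝ[X]).degree with hd | hd | hd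
  · have h1 := (Polynomial.div_tendsto_atTop_zero_of_degree_lt P (X ^ 4) hd).comp hnat
    have h2 : Tendsto (fun h : ℕ => P.eval (h : ℝ) / (h : ℝ) ^ 4) l (𝓝 0) := by
      simpa [Function.comp_def] using h1
    have h3 := tendsto_nhds_unique hlim1 h2
    rw [h3] at hc
    exact hc ⟨0, by simp⟩
  · have h1 := (Polynomial.div_tendsto_atTop_leadingCoeff_div_of_degree_eq P (X ^ 4) hd).comp hnat
    have h2 : Tendsto (fun h : ℕ => P.eval (h : ℝ) / (h : ℝ) ^ 4) l (𝓝 P.leadingCoeff) := by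
      simpa [Function.comp_def] using h1
    have h3 := tendsto_nhds_unique hlim1 h2
    apply hc
    rw [h3, ← hQ]
    refine ⟨Q.leadingCoeff, ?_⟩
    rw [Polynomial.leadingCoeff_map]
    simp
  · have h1 := (Polynomial.abs_div_tendsto_atTop_atTop_of_degree_gt P (X ^ 4) hd (by simp)).comp hnat
    have h2 : Tendsto (fun h : ℕ => |P.eval (h : ℝ) / (h : ℝ) ^ 4|) l atTop := by
      simpa [Function.comp_def] using h1
    exact not_tendsto_nhds_of_tendsto_atTop h2 _ hlim1.abs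

end PS
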