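import Pool.Agent.helper46.PS.Struct

/-!
# MP_da66b4_nt: passage to the limit
-/

namespace PS

open Filter Topology

theorem exists_lim (U : Ultrafilter ℕ) (f : ℕ → ℝ) (C : ℝ) (hf : ∀ m, 0 ≤ f m ∧ f m ≤ C) :
    ∃ L : ℝ, 0 ≤ L ∧ Tendsto f U (𝓝 L) := by
  obtain ⟨L, hL, hle⟩ := (isCompact_Icc (a := (0 : ℝ)) (b := C)).ultrafilter_le_nhds (U.map f) (by
    rw [Ultrafilter.coe_map, le_principal_iff, Filter.mem_map]
    exact Filter.univ_mem' (fun m => hf m))
  exact ⟨L, hL.1, hle⟩

theorem exists_const (U : Ultrafilter ℕ) (f : ℕ → ℤ) (B : ℝ) (hf : ∀ᶠ m in U, |(f m : ℝ)| ≤ B) :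
    ∃ i : ℤ, ∀ᶠ m in U, f m = i := by
  have h1 : ∀ᶠ m in U, ∃ i ∈ Set.Icc (-⌈B⌉) ⌈B⌉, f m = i := by
    filter_upwards [hf] with m hm
    refine ⟨f m, ?_, rfl⟩
    rw [abs_le] at hm
    have h2 := Int.le_ceil B
    constructor
    · have : (-(⌈B⌉ : ℤ) : ℝ) ≤ f m := by linarith [hm.1]
      exact_mod_cast this
    · have : (f m : ℝ) ≤ (⌈B⌉ : ℝ) := by linarith [hm.2]
      exact_mod_cast this
  obtain ⟨i, _, hi⟩ := (Ultrafilter.eventually_exists_mem_iff (Set.finite_Icc _ _)).1 h1
  exact ⟨i, hi⟩

theorem abs_floor_sub_le (H x : ℝ) (hH : 1 ≤ H) (X : ℕ) (hX : (X : ℝ) ≤ H) :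
    |((⌊H * x⌋ : ℤ) : ℝ) - X| ≤ (|x| + 2) * H := by
  have h1 := Int.floor_le (H * x)
  have h2 := Int.lt_floor_add_one (H * x)
  have h3 : H * x ≤ H * |x| := mul_le_mul_of_nonneg_left (le_abs_self x) (by linarith)
  have h4 : H * (-|x|) ≤ H * x := mul_le_mul_of_nonneg_left (neg_abs_le x) (by linarith)
  have h5 : (0 : ℝ) ≤ X := Nat.cast_nonneg X
  have h6 : 0 ≤ H * |x| := mul_nonneg (by linarith) (abs_nonneg x)
  rw [abs_le]
  constructor <;> nlinarith

theorem limit_params (h n a b d q r w u t : ℕ → ℕ)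
    (hD : ∀ m, Dat (h m) (n m) (a m) (b m) (d m) (q m) (r m) (w m) (u m) (t m))
    (hh : Tendsto h atTop atTop) (c : ℝ) (hc : 0 < c) (hn : ∀ m, c * (h m : ℝ) ^ 4 ≤ n m) :
    ∃ al s rho t' u' om mu : ℝ, 0 < al ∧ 0 ≤ s ∧ s ≤ al ∧ 0 < rho ∧ 0 ≤ t' ∧ t' ≤ al ∧ 0 ≤ u' ∧
      u' ≤ rho ∧ 0 < om ∧ al + rho ≤ 1 ∧ Covers al s rho t' u' om mu ∧
      c ≤ (1 - mu) * al * rho * om := by
  set U : Ultrafilter ℕ := hyperfilter ℕ with hU
  have hUle : (U : Filter ℕ) ≤ atTop := Nat.hyperfilter_le_atTop
  set H : ℕ → ℝ := fun m => (h m : ℝ) with hHdef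
  have hH1 : ∀ m, 1 ≤ H m := fun m => by
    have := (hD m).h0
    simp only [hHdef]; exact_mod_cast this
  have hH0 : ∀ m, 0 < H m := fun m => lt_of_lt_of_le one_pos (hH1 m)
  have hHt : Tendsto H U atTop := (tendsto_natCast_atTop_atTop.comp hh).mono_left hUle
  have hinv : Tendsto (fun m => 1 / H m) U (𝓝 0) := by
    have := tendsto_inv_atTop_zero.comp hHt
    simpa [Function.comp_def] using this
  -- elementary bounds
  have ha2 : ∀ m, (a m : ℝ) ≤ 2 * H m := fun m => by
    have h1 := (hD m).ah
    have h2 := (hD m).h0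
    have : a m ≤ 2 * h m := by omega
    simp only [hHdef]; exact_mod_cast this
  have hq2 : ∀ m, (q m : ℝ) ≤ 2 * H m := fun m => by
    have h1 := (hD m).aq
    have h2 := (hD m).h0
    have h3 := (hD m).a1
    have : q m ≤ 2 * h m := by omega
    simp only [hHdef]; exact_mod_cast this
  have hw2 : ∀ m, (w m : ℝ) ≤ 2 * H m := fun m => by
    have h1 := (hD m).db
    have h2 := (hD m).h0
    have h3 := (hD m).ed
    have h4 := (hD m).ab
    have h5 : w m * b m ≤ (h m + 1) * b m := by
      rw [add_mul]; omega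
    have h6 : w m ≤ h m + 1 := Nat.le_of_mul_le_mul_right h5 (by omega)
    have : w m ≤ 2 * h m := by omega
    simp only [hHdef]; exact_mod_cast this
  have hra : ∀ m, (r m : ℝ) ≤ a m := fun m => by exact_mod_cast (hD m).ra.le
  have hta : ∀ m, (t m : ℝ) ≤ a m := fun m => by exact_mod_cast (hD m).ta.le
  have huq : ∀ m, (u m : ℝ) ≤ q m := fun m => by exact_mod_cast (hD m).uq
  have hd0 : ∀ m, (0 : ℝ) < d m := fun m => by
    have h1 := (hD m).bd
    have : 0 < d m := by omega
    exact_mod_cast this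
  have ha0 : ∀ m, (0 : ℝ) < a m := fun m => by
    have h1 := (hD m).a1
    have : 0 < a m := by omega
    exact_mod_cast this
  have hb0 : ∀ m, (0 : ℝ) < b m := fun m => by
    have h1 := (hD m).ab
    have : 0 < b m := by omega
    exact_mod_cast this
  have hq0 : ∀ m, (0 : ℝ) < q m := fun m => by
    have h1 := (hD m).q0
    have : 0 < q m := by omega
    exact_mod_cast this
  have hw0 : ∀ m, (0 : ℝ) < w m := fun m => by
    have h1 := (hD m).w0
    have : 0 < w m := by omega
    exact_mod_cast this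
  have hnd : ∀ m, (n m : ℝ) ≤ H m * d m := fun m => by
    have h1 := (hD m).nd
    simp only [hHdef]; exact_mod_cast h1
  have heb : ∀ m, (b m : ℝ) = q m * a m + r m := fun m => by exact_mod_cast (hD m).eb
  have hed : ∀ m, (d m : ℝ) = w m * b m + u m * a m + t m := fun m => by exact_mod_cast (hD m).ed
  -- limits
  have bdiv : ∀ (x y : ℝ) (H : ℝ), 0 < H → 0 ≤ x → x ≤ y * H → 0 ≤ x / H ∧ x / H ≤ y :=
    fun x y H hH hx hxy => ⟨by positivity, by rw [div_le_iff₀ hH]; exact hxy⟩
  obtain ⟨al, al0, hal⟩ := exists_lim U (fun m => (a m : ℝ) / H m) 2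
    (fun m => bdiv _ _ _ (hH0 m) (Nat.cast_nonneg _) (ha2 m))
  obtain ⟨s, s0, hs⟩ := exists_lim U (fun m => (r m : ℝ) / H m) 2
    (fun m => bdiv _ _ _ (hH0 m) (Nat.cast_nonneg _) ((hra m).trans (ha2 m)))
  obtain ⟨rho, rho0, hrho⟩ := exists_lim U (fun m => (q m : ℝ) / H m) 2
    (fun m => bdiv _ _ _ (hH0 m) (Nat.cast_nonneg _) (hq2 m))
  obtain ⟨t', t0, ht⟩ := exists_lim U (fun m => (t m : ℝ) / H m) 2
    (fun m => bdiv _ _ _ (hH0 m) (Nat.cast_nonneg _) ((hta m).trans (ha2 m)))
  obtain ⟨u', u0, hu⟩ := exists_lim U (fun m => (u m : ℝ) / H m) 2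
    (fun m => bdiv _ _ _ (hH0 m) (Nat.cast_nonneg _) ((huq m).trans (hq2 m)))
  obtain ⟨om, om0, hom⟩ := exists_lim U (fun m => (w m : ℝ) / H m) 2
    (fun m => bdiv _ _ _ (hH0 m) (Nat.cast_nonneg _) (hw2 m))
  obtain ⟨nu, nu0, hnu⟩ := exists_lim U (fun m => (n m : ℝ) / (H m * d m)) 1
    (fun m => bdiv _ _ _ (mul_pos (hH0 m) (hd0 m)) (Nat.cast_nonneg _) (by rw [one_mul]; exact hnd m))
  -- the product
  have hprod : Tendsto (fun m => (n m : ℝ) / H m ^ 4) U (𝓝 (nu * (om * (rho * al)))) := by
    have h1 := hnu.mul (((hom.mul ((hrho.mul hal).add (hs.mul hinv))).add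
      ((hu.mul hal).mul hinv)).add ((ht.mul hinv).mul hinv))
    have h2 : nu * (om * (rho * al + s * 0) + u' * al * 0 + t' * 0 * 0) = nu * (om * (rho * al)) := by
      ring
    rw [h2] at h1
    refine h1.congr (fun m => ?_)
    have e1 := (hH0 m).ne'
    have e2 := (hd0 m).ne'
    have e3 : (w m : ℝ) / H m * (q m / H m * (a m / H m) + r m / H m * (1 / H m)) +
        u m / H m * (a m / H m) * (1 / H m) + t m / H m * (1 / H m) * (1 / H m) = d m / H m ^ 3 := by
      rw [hed m, heb m]
      field_simp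
    rw [e3]
    field_simp
  have hcle : c ≤ nu * (om * (rho * al)) := by
    refine ge_of_tendsto hprod (Filter.Eventually.of_forall (fun m => ?_))
    rw [le_div_iff₀ (pow_pos (hH0 m) 4)]
    exact hn m
  have hpos : 0 < nu * (om * (rho * al)) := lt_of_lt_of_le hc hcle
  have alpos : 0 < al := by
    rcases al0.lt_or_eq with h1 | h1
    · exact h1
    · rw [← h1] at hpos; simp at hpos
  have rhopos : 0 < rho := by
    rcases rho0.lt_or_eq with h1 | h1
    · exact h1
    · rw [← h1] at hpos; simp at hpos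
  have ompos : 0 < om := by
    rcases om0.lt_or_eq with h1 | h1
    · exact h1
    · rw [← h1] at hpos; simp at hpos
  refine ⟨al, s, rho, t', u', om, 1 - nu, alpos, s0, ?_, rhopos, t0, ?_, u0, ?_, ompos, ?_, ?_, ?_⟩
  · refine le_of_tendsto_of_tendsto' hs hal (fun m => ?_)
    exact div_le_div_of_nonneg_right (hra m) (hH0 m).le
  · refine le_of_tendsto_of_tendsto' ht hal (fun m => ?_)
    exact div_le_div_of_nonneg_right (hta m) (hH0 m).le
  · refine le_of_tendsto_of_tendsto' hu hrho (fun m => ?_)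
    exact div_le_div_of_nonneg_right (huq m) (hH0 m).le
  · have h1 : Tendsto (fun m => 1 + 2 * (1 / H m)) U (𝓝 (1 + 2 * 0)) :=
      (hinv.const_mul 2).const_add 1
    have h2 := le_of_tendsto_of_tendsto' (hal.add hrho) h1 (fun m => ?_)
    · linarith
    · have h3 := (hD m).aq
      have h4 : (a m : ℝ) + q m ≤ H m + 2 := by
        simp only [hHdef]; exact_mod_cast h3
      rw [← add_div, div_le_iff₀ (hH0 m)]
      have : (1 + 2 * (1 / H m)) * H m = H m + 2 := by
        have := (hH0 m).ne'
        field_simp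
      rw [this]; exact h4
  · -- the covering
    intro x y z
    set P1 : ℕ → ℤ := fun m => ⌊H m * x⌋ with hP1
    set P2 : ℕ → ℤ := fun m => ⌊H m * y⌋ with hP2
    set P3 : ℕ → ℤ := fun m => ⌊H m * z⌋ with hP3
    choose X1 X2 X3 k0 hk using fun m => (hD m).cov (P1 m + a m * P2 m + b m * P3 m)
    set C : ℝ := |x| + |y| + |z| + 2 with hC
    have hC0 : 0 < C := by positivity
    -- the differences
    set y1 : ℕ → ℤ := fun m => P1 m - X1 m with hy1
    set y2 : ℕ → ℤ := fun m => P2 m - X2 m with hy2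
    set y3 : ℕ → ℤ := fun m => P3 m - X3 m with hy3
    set K : ℕ → ℤ := fun m => -k0 m with hK
    set J : ℕ → ℤ := fun m => K m * w m - y3 m with hJ
    set I : ℕ → ℤ := fun m => J m * q m + K m * u m - y2 m with hI
    have hker : ∀ m, y1 m + a m * y2 m + b m * y3 m = K m * d m := fun m => by
      have := (hk m).1
      simp only [hy1, hy2, hy3, hK]
      linarith
    have hXh : ∀ m, ((X1 m : ℝ) ≤ H m) ∧ ((X2 m : ℝ) ≤ H m) ∧ ((X3 m : ℝ) ≤ H m) := fun m => by
      have h1 := (hk m).2.1
      simp only [hHdef]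
      refine ⟨?_, ?_, ?_⟩
      · exact_mod_cast (by omega : X1 m ≤ h m)
      · exact_mod_cast (by omega : X2 m ≤ h m)
      · exact_mod_cast (by omega : X3 m ≤ h m)
    have b1 : ∀ m, |(y1 m : ℝ)| ≤ C * H m := fun m => by
      have h1 := abs_floor_sub_le (H m) x (hH1 m) (X1 m) (hXh m).1
      simp only [hy1, hP1]
      push_cast
      refine h1.trans ?_
      apply mul_le_mul_of_nonneg_right _ (hH0 m).le
      have := abs_nonneg y
      have := abs_nonneg z
      linarith
    have b2 : ∀ m, |(y2 m : ℝ)| ≤ C * H m := fun m => by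
      have h1 := abs_floor_sub_le (H m) y (hH1 m) (X2 m) (hXh m).2.1
      simp only [hy2, hP2]
      push_cast
      refine h1.trans ?_
      apply mul_le_mul_of_nonneg_right _ (hH0 m).le
      have := abs_nonneg x
      have := abs_nonneg z
      linarith
    have b3 : ∀ m, |(y3 m : ℝ)| ≤ C * H m := fun m => by
      have h1 := abs_floor_sub_le (H m) z (hH1 m) (X3 m) (hXh m).2.2
      simp only [hy3, hP3]
      push_cast
      refine h1.trans ?_
      apply mul_le_mul_of_nonneg_right _ (hH0 m).le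
      have := abs_nonneg x
      have := abs_nonneg y
      linarith
    -- kernel coordinates
    have hbJ : ∀ m, (b m : ℝ) * J m = y1 m + a m * y2 m - K m * (u m * a m + t m) := fun m => by
      have h1 : (y1 m : ℝ) + a m * y2 m + b m * y3 m = K m * d m := by exact_mod_cast hker m
      have h2 : (J m : ℝ) = K m * w m - y3 m := by simp only [hJ]; push_cast; ring
      rw [h2]
      rw [hed m] at h1
      linear_combination -h1
    have haI : ∀ m, (a m : ℝ) * I m = y1 m - K m * t m - r m * J m := fun m => by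
      have h1 := hbJ m
      have h2 : (I m : ℝ) = J m * q m + K m * u m - y2 m := by simp only [hI]; push_cast; ring
      rw [h2]
      rw [heb m] at h1
      linear_combination h1
    have hy1e : ∀ m, (y1 m : ℝ) = I m * a m + J m * r m + K m * t m := fun m => by
      have := haI m
      linarith
    have hy2e : ∀ m, (y2 m : ℝ) = J m * q m + K m * u m - I m := fun m => by
      simp only [hI]; push_cast; ring
    have hy3e : ∀ m, (y3 m : ℝ) = K m * w m - J m := fun m => by
      simp only [hJ]; push_cast; ring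
    -- bounds on the coordinates
    have cK : ∀ m, |(K m : ℝ)| * (w m / H m) ≤ 3 * C := fun m => by
      have h1 : (y1 m : ℝ) + a m * y2 m + b m * y3 m = K m * d m := by exact_mod_cast hker m
      have hab : (a m : ℝ) ≤ b m := by exact_mod_cast (hD m).ab.le
      have h1b : (1 : ℝ) ≤ b m := by
        have h4 := (hD m).ab
        exact_mod_cast (by omega : 1 ≤ b m)
      have h2 : |(K m : ℝ)| * d m ≤ 3 * C * H m * b m := by
        have g0 : |(K m : ℝ)| * d m = |(K m : ℝ) * d m| := by rw [abs_mul, abs_of_pos (hd0 m)]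
        rw [g0, ← h1]
        have g1 : |(a m : ℝ) * y2 m| ≤ b m * (C * H m) := by
          rw [abs_mul, abs_of_pos (ha0 m)]
          exact mul_le_mul hab (b2 m) (abs_nonneg _) (hb0 m).le
        have g2 : |(b m : ℝ) * y3 m| ≤ b m * (C * H m) := by
          rw [abs_mul, abs_of_pos (hb0 m)]
          exact mul_le_mul_of_nonneg_left (b3 m) (hb0 m).le
        have g3 : |(y1 m : ℝ)| ≤ b m * (C * H m) := by
          refine (b1 m).trans ?_
          exact le_mul_of_one_le_left (mul_nonneg hC0.le (hH0 m).le) h1b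
        calc |(y1 m : ℝ) + a m * y2 m + b m * y3 m|
            ≤ |(y1 m : ℝ)| + |(a m : ℝ) * y2 m| + |(b m : ℝ) * y3 m| := abs_add_three _ _ _
          _ ≤ 3 * C * H m * b m := by linarith
      have h3 : (w m : ℝ) * b m ≤ d m := by
        rw [hed m]
        have : (0 : ℝ) ≤ u m * a m + t m := by positivity
        linarith
      have h4 : |(K m : ℝ)| * w m * b m ≤ 3 * C * H m * b m := by
        refine le_trans ?_ h2
        rw [mul_assoc]
        exact mul_le_mul_of_nonneg_left h3 (abs_nonneg _)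
      have h5 : |(K m : ℝ)| * w m ≤ 3 * C * H m := le_of_mul_le_mul_right h4 (hb0 m)
      rw [← mul_div_assoc, div_le_iff₀ (hH0 m)]
      exact h5
    have cJ : ∀ m, (|(J m : ℝ)| - |(K m : ℝ)|) * (q m / H m) ≤ 2 * C := fun m => by
      have h1 := hbJ m
      have h1a : (1 : ℝ) ≤ a m := by
        have h4 := (hD m).a1
        exact_mod_cast (by omega : 1 ≤ a m)
      have hR : (u m : ℝ) * a m + t m ≤ b m := by exact_mod_cast (hD m).Rb.le
      have h2 : (b m : ℝ) * |(J m : ℝ)| ≤ 2 * C * H m * a m + |(K m : ℝ)| * b m := by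
        have g0 : (b m : ℝ) * |(J m : ℝ)| = |(b m : ℝ) * J m| := by rw [abs_mul, abs_of_pos (hb0 m)]
        rw [g0, h1]
        have g1 : |(a m : ℝ) * y2 m| ≤ a m * (C * H m) := by
          rw [abs_mul, abs_of_pos (ha0 m)]
          exact mul_le_mul_of_nonneg_left (b2 m) (ha0 m).le
        have g3 : |(y1 m : ℝ)| ≤ a m * (C * H m) := by
          refine (b1 m).trans ?_
          exact le_mul_of_one_le_left (mul_nonneg hC0.le (hH0 m).le) h1a
        have g2 : |(K m : ℝ) * (u m * a m + t m)| ≤ |(K m : ℝ)| * b m := by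
          rw [abs_mul, abs_of_nonneg (show (0 : ℝ) ≤ u m * a m + t m by positivity)]
          exact mul_le_mul_of_nonneg_left hR (abs_nonneg _)
        have g4 : |(y1 m : ℝ) + a m * y2 m - K m * (u m * a m + t m)| ≤
            |(y1 m : ℝ) + a m * y2 m| + |(K m : ℝ) * (u m * a m + t m)| := abs_sub _ _
        have g5 : |(y1 m : ℝ) + a m * y2 m| ≤ |(y1 m : ℝ)| + |(a m : ℝ) * y2 m| := abs_add_le _ _
        linarith
      have h3 : (|(J m : ℝ)| - |(K m : ℝ)|) * q m ≤ 2 * C * H m := by
        rcases le_or_gt (|(J m : ℝ)| - |(K m : ℝ)|) 0 with hneg | hneg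
        · have : (|(J m : ℝ)| - |(K m : ℝ)|) * q m ≤ 0 :=
            mul_nonpos_of_nonpos_of_nonneg hneg (hq0 m).le
          have h5 : 0 ≤ 2 * C * H m := by
            have := (hH0 m).le
            positivity
          linarith
        · have h6 : (q m : ℝ) * a m ≤ b m := by
            rw [heb m]
            have : (0 : ℝ) ≤ r m := Nat.cast_nonneg _
            linarith
          have h7 : (|(J m : ℝ)| - |(K m : ℝ)|) * (q m * a m) ≤ 2 * C * H m * a m := by
            have : (|(J m : ℝ)| - |(K m : ℝ)|) * (q m * a m) ≤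
              (|(J m : ℝ)| - |(K m : ℝ)|) * b m := mul_le_mul_of_nonneg_left h6 hneg.le
            linarith
          have h8 : (|(J m : ℝ)| - |(K m : ℝ)|) * q m * a m ≤ 2 * C * H m * a m := by
            rw [mul_assoc]; exact h7
          exact le_of_mul_le_mul_right h8 (ha0 m)
      rw [← mul_div_assoc, div_le_iff₀ (hH0 m)]
      exact h3
    have cI : ∀ m, (|(I m : ℝ)| - |(J m : ℝ)| - |(K m : ℝ)|) * (a m / H m) ≤ C := fun m => by
      have h1 := haI m
      have h2 : (a m : ℝ) * |(I m : ℝ)| ≤ C * H m + |(K m : ℝ)| * a m + |(J m : ℝ)| * a m := by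
        have g0 : (a m : ℝ) * |(I m : ℝ)| = |(a m : ℝ) * I m| := by rw [abs_mul, abs_of_pos (ha0 m)]
        rw [g0, h1]
        have g1 : |(K m : ℝ) * t m| ≤ |(K m : ℝ)| * a m := by
          rw [abs_mul, abs_of_nonneg (Nat.cast_nonneg (t m) : (0 : ℝ) ≤ (t m : ℝ))]
          exact mul_le_mul_of_nonneg_left (hta m) (abs_nonneg _)
        have g2 : |(r m : ℝ) * J m| ≤ |(J m : ℝ)| * a m := by
          rw [abs_mul, abs_of_nonneg (Nat.cast_nonneg (r m) : (0 : ℝ) ≤ (r m : ℝ)), mul_comm]
          exact mul_le_mul_of_nonneg_left (hra m) (abs_nonneg _)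
        have g3 := b1 m
        have g4 : |(y1 m : ℝ) - K m * t m - r m * J m| ≤
            |(y1 m : ℝ) - K m * t m| + |(r m : ℝ) * J m| := abs_sub _ _
        have g5 : |(y1 m : ℝ) - K m * t m| ≤ |(y1 m : ℝ)| + |(K m : ℝ) * t m| := abs_sub _ _
        linarith
      rw [← mul_div_assoc, div_le_iff₀ (hH0 m)]
      linarith
    have eK : ∀ᶠ m in U, |(K m : ℝ)| ≤ 6 * C / om := by
      filter_upwards [hom.eventually (lt_mem_nhds (half_lt_self ompos))] with m hm
      rw [le_div_iff₀ ompos]
      have h1 := cK m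
      have h2 : |(K m : ℝ)| * (om / 2) ≤ |(K m : ℝ)| * (w m / H m) :=
        mul_le_mul_of_nonneg_left hm.le (abs_nonneg _)
      linarith
    have eJ : ∀ᶠ m in U, |(J m : ℝ)| ≤ 6 * C / om + 4 * C / rho := by
      filter_upwards [eK, hrho.eventually (lt_mem_nhds (half_lt_self rhopos))] with m hm1 hm
      have h1 := cJ m
      rcases le_or_gt (|(J m : ℝ)| - |(K m : ℝ)|) 0 with hneg | hneg
      · have : 0 ≤ 4 * C / rho := by positivity
        linarith
      · have h2 : (|(J m : ℝ)| - |(K m : ℝ)|) * (rho / 2) ≤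
          (|(J m : ℝ)| - |(K m : ℝ)|) * (q m / H m) := mul_le_mul_of_nonneg_left hm.le hneg.le
        have h3 : |(J m : ℝ)| - |(K m : ℝ)| ≤ 4 * C / rho := by
          rw [le_div_iff₀ rhopos]
          linarith
        linarith
    have eI : ∀ᶠ m in U, |(I m : ℝ)| ≤ 6 * C / om + (6 * C / om + 4 * C / rho) + 2 * C / al := by
      filter_upwards [eK, eJ, hal.eventually (lt_mem_nhds (half_lt_self alpos))] with m hm1 hm2 hm
      have h1 := cI m
      rcases le_or_gt (|(I m : ℝ)| - |(J m : ℝ)| - |(K m : ℝ)|) 0 with hneg | hneg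
      · have : 0 ≤ 2 * C / al := by positivity
        linarith
      · have h2 : (|(I m : ℝ)| - |(J m : ℝ)| - |(K m : ℝ)|) * (al / 2) ≤
          (|(I m : ℝ)| - |(J m : ℝ)| - |(K m : ℝ)|) * (a m / H m) :=
            mul_le_mul_of_nonneg_left hm.le hneg.le
        have h3 : |(I m : ℝ)| - |(J m : ℝ)| - |(K m : ℝ)| ≤ 2 * C / al := by
          rw [le_div_iff₀ alpos]
          linarith
        linarith
    obtain ⟨k, hk'⟩ := exists_const U K _ eK
    obtain ⟨j, hj'⟩ := exists_const U J _ eJ
    obtain ⟨i, hi'⟩ := exists_const U I _ eI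
    refine ⟨i, j, k, ?_, ?_, ?_, ?_⟩
    · have hl : Tendsto (fun m => x - (i * (a m / H m) + j * (r m / H m) + k * (t m / H m))) U
          (𝓝 (x - (i * al + j * s + k * t'))) :=
        (((hal.const_mul _).add (hs.const_mul _)).add (ht.const_mul _)).const_sub x
      refine ge_of_tendsto hl ?_
      filter_upwards [hk', hj', hi'] with m e1 e2 e3
      have h1 := hy1e m
      rw [e1, e2, e3] at h1
      have h2 : ((P1 m : ℤ) : ℝ) ≤ H m * x := Int.floor_le _
      have h3 : (y1 m : ℝ) = P1 m - X1 m := by simp only [hy1]; push_cast; ring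
      have h4 : (0 : ℝ) ≤ X1 m := Nat.cast_nonneg _
      have h5 : x - (i * (a m / H m) + j * (r m / H m) + k * (t m / H m)) =
          (H m * x - (i * a m + j * r m + k * t m)) / H m := by
        have := (hH0 m).ne'
        field_simp
      rw [h5]
      apply div_nonneg _ (hH0 m).le
      linarith
    · have hl : Tendsto (fun m => y - (j * (q m / H m) + k * (u m / H m)) + i * (1 / H m)) U
          (𝓝 (y - (j * rho + k * u') + i * 0)) :=
        (((hrho.const_mul _).add (hu.const_mul _)).const_sub y).add (hinv.const_mul _)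
      have hl0 : y - (j * rho + k * u') + i * 0 = y - (j * rho + k * u') := by ring
      rw [hl0] at hl
      refine ge_of_tendsto hl ?_
      filter_upwards [hk', hj', hi'] with m e1 e2 e3
      have h1 := hy2e m
      rw [e1, e2, e3] at h1
      have h2 : ((P2 m : ℤ) : ℝ) ≤ H m * y := Int.floor_le _
      have h3 : (y2 m : ℝ) = P2 m - X2 m := by simp only [hy2]; push_cast; ring
      have h4 : (0 : ℝ) ≤ X2 m := Nat.cast_nonneg _
      have h5 : y - (j * (q m / H m) + k * (u m / H m)) + i * (1 / H m) =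
          (H m * y - (j * q m + k * u m - i)) / H m := by
        have := (hH0 m).ne'
        field_simp
        ring
      rw [h5]
      apply div_nonneg _ (hH0 m).le
      linarith
    · have hl : Tendsto (fun m => z - k * (w m / H m) + j * (1 / H m)) U
          (𝓝 (z - k * om + j * 0)) :=
        ((hom.const_mul _).const_sub z).add (hinv.const_mul _)
      have hl0 : z - k * om + j * 0 = z - k * om := by ring
      rw [hl0] at hl
      refine ge_of_tendsto hl ?_
      filter_upwards [hk', hj', hi'] with m e1 e2 e3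
      have h1 := hy3e m
      rw [e1, e2] at h1
      have h2 : ((P3 m : ℤ) : ℝ) ≤ H m * z := Int.floor_le _
      have h3 : (y3 m : ℝ) = P3 m - X3 m := by simp only [hy3]; push_cast; ring
      have h4 : (0 : ℝ) ≤ X3 m := Nat.cast_nonneg _
      have h5 : z - k * (w m / H m) + j * (1 / H m) =
          (H m * z - (k * w m - j)) / H m := by
        have := (hH0 m).ne'
        field_simp
        ring
      rw [h5]
      apply div_nonneg _ (hH0 m).le
      linarith
    · have hl : Tendsto (fun m => (x - (i * (a m / H m) + j * (r m / H m) + k * (t m / H m))) +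
          (y - (j * (q m / H m) + k * (u m / H m)) + i * (1 / H m)) +
            (z - k * (w m / H m) + j * (1 / H m))) U
          (𝓝 ((x - (i * al + j * s + k * t')) + (y - (j * rho + k * u') + i * 0) +
            (z - k * om + j * 0))) :=
        (((((hal.const_mul _).add (hs.const_mul _)).add (ht.const_mul _)).const_sub x).add
          ((((hrho.const_mul _).add (hu.const_mul _)).const_sub y).add (hinv.const_mul _))).add
            (((hom.const_mul _).const_sub z).add (hinv.const_mul _))
      have hr : Tendsto (fun m => 1 - n m / (H m * d m) + (1 / H m) * (1 / (w m / H m)) +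
          4 * (1 / H m)) U (𝓝 (1 - nu + 0 * (1 / om) + 4 * 0)) := by
        have h1 : Tendsto (fun m => 1 / ((w m : ℝ) / H m)) U (𝓝 (1 / om)) := by
          simpa using hom.inv₀ ompos.ne'
        exact (((hnu.const_sub 1).add (hinv.mul h1))).add (hinv.const_mul 4)
      have hfin := le_of_tendsto_of_tendsto hl hr ?_
      · linarith
      · filter_upwards [hk', hj', hi'] with m e1 e2 e3
        have h1 := hy1e m
        have h2 := hy2e m
        have h3 := hy3e m
        rw [e1, e2, e3] at h1 h2
        rw [e1, e2] at h3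
        have p1 : H m * x - 1 < ((P1 m : ℤ) : ℝ) := Int.sub_one_lt_floor _
        have p2 : H m * y - 1 < ((P2 m : ℤ) : ℝ) := Int.sub_one_lt_floor _
        have p3 : H m * z - 1 < ((P3 m : ℤ) : ℝ) := Int.sub_one_lt_floor _
        have q1 : (y1 m : ℝ) = P1 m - X1 m := by simp only [hy1]; push_cast; ring
        have q2 : (y2 m : ℝ) = P2 m - X2 m := by simp only [hy2]; push_cast; ring
        have q3 : (y3 m : ℝ) = P3 m - X3 m := by simp only [hy3]; push_cast; ring
        have hs1 : (d m : ℝ) * (X1 m + X2 m + X3 m) + n m ≤ d m * H m + b m * H m + d m := by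
          have := (hk m).2.2
          simp only [hHdef]
          exact_mod_cast this
        have e5 : (x - (i * (a m / H m) + j * (r m / H m) + k * (t m / H m))) +
          (y - (j * (q m / H m) + k * (u m / H m)) + i * (1 / H m)) +
            (z - k * (w m / H m) + j * (1 / H m)) =
            (H m * x + H m * y + H m * z - (i * a m + j * r m + k * t m) -
              (j * q m + k * u m - i) - (k * w m - j)) / H m := by
          have := (hH0 m).ne'
          field_simp
          ring
        rw [e5, div_le_iff₀ (hH0 m)]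
        have e6 : (1 - (n m : ℝ) / (H m * d m) + (1 / H m) * (1 / (w m / H m)) +
          4 * (1 / H m)) * H m = H m - n m / d m + H m / w m + 4 := by
          have g1 := (hH0 m).ne'
          have g2 := (hw0 m).ne'
          have g3 := (hd0 m).ne'
          field_simp
        rw [e6]
        have e7 : ((X1 m : ℝ) + X2 m + X3 m) ≤ H m + b m * H m / d m + 1 - n m / d m := by
          have : H m + b m * H m / d m + 1 - n m / d m = (d m * H m + b m * H m + d m - n m) / d m := by
            have g3 := (hd0 m).ne'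
            field_simp
          rw [this, le_div_iff₀ (hd0 m)]
          linarith
        have e8 : b m * H m / d m ≤ H m / w m := by
          rw [div_le_div_iff₀ (hd0 m) (hw0 m)]
          have : (w m : ℝ) * b m ≤ d m := by
            rw [hed m]
            have : (0 : ℝ) ≤ u m * a m + t m := by positivity
            linarith
          nlinarith [hH0 m]
        linarith
  · have : (1 - (1 - nu)) * al * rho * om = nu * (om * (rho * al)) := by ring
    rw [this]
    exact hcle

end PS
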