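import Pool.Agent.helper46.PS.Rep
import Pool.Agent.helper46.PS.Basic

/-!
# MP_da66b4_nt: the lower bound `liminf n(h,4) / h^4 ≥ c`
-/

namespace PS

open Filter Topology

/-- the value of the lower bound -/
def low (G E : ℤ) : ℤ :=
  (25 * G - 90 * E) * (40 * E * ((5 * G + 30 * E) * (35 * G - 30 * E) + (18 * G - 28 * E)) +
    (G - 26 * E) * (35 * G - 30 * E) + (13 * G - 18 * E))

theorem low_le_nn (G E : ℤ) (hG : 100 ≤ G) (h1 : 7 * G ≤ 50 * E) (h2 : 6 * E ≤ G) (h : ℕ)
    (hh : 40 * G + 200 ≤ h) : low G E ≤ nn h 4 := by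
  have ha0 : 1 < 35 * G - 30 * E := by omega
  set a : ℤ := 35 * G - 30 * E with ha
  set q : ℤ := 5 * G + 30 * E with hq
  set r : ℤ := 18 * G - 28 * E with hr
  set w : ℤ := 40 * E with hw
  set u : ℤ := G - 26 * E with hu
  set t : ℤ := 13 * G - 18 * E with ht
  set b : ℤ := q * a + r with hb
  set d : ℤ := w * b + u * a + t with hd
  have hr0 : 0 < r := by omega
  have hra : r < a := by omega
  have ht0 : 0 ≤ t := by omega
  have hqa : a ≤ q * a := by nlinarith
  have hab : a < b := by linarith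
  have huq : -q ≤ u := by omega
  have hua : -b ≤ u * a := by
    have : -q * a ≤ u * a := mul_le_mul_of_nonneg_right huq (by omega)
    linarith
  have hw0 : 100 ≤ w := by omega
  have hwb : 100 * b ≤ w * b := mul_le_mul_of_nonneg_right hw0 (by omega)
  have hbd : b < d := by linarith
  have hlow : low G E = (25 * G - 90 * E) * d := by
    rw [low, hd, hb]
  have hn0 : 0 ≤ (25 * G - 90 * E) * d := mul_nonneg (by omega) (by omega)
  rw [hlow]
  obtain ⟨n, hn⟩ := Int.eq_ofNat_of_zero_le hn0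
  have hA : (({1, a.toNat, b.toNat, d.toNat} : Finset ℕ)).card = 4 := by
    have q1 : 1 < a.toNat := by omega
    have q2 : a.toNat < b.toNat := by omega
    have q3 : b.toNat < d.toNat := by omega
    rw [Finset.card_insert_of_notMem, Finset.card_insert_of_notMem, Finset.card_insert_of_notMem,
      Finset.card_singleton]
    · simp; omega
    · simp; omega
    · simp; omega
  have hB : IsBasis h {1, a.toNat, b.toNat, d.toNat} n := by
    refine ⟨?_, ?_⟩
    · intro x hx
      simp only [Finset.mem_insert, Finset.mem_singleton] at hx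
      omega
    · intro m hm
      obtain ⟨x1, x2, x3, x4, e1, e2, e3, e4, e5, e6⟩ :=
        rep_family G E hG h1 h2 a b d q r w u t ha hq hr hw hu ht hb hd (m : ℤ) (by positivity)
          (by rw [hn]; exact_mod_cast hm)
      refine isSum_of_four (x1 := x1.toNat) (x2 := x2.toNat) (x3 := x3.toNat) (x4 := x4.toNat)
        (by omega) ?_
      have : ((x1.toNat + a.toNat * x2.toNat + b.toNat * x3.toNat + d.toNat * x4.toNat : ℕ) : ℤ)
          = (m : ℤ) := by
        push_cast
        rw [Int.toNat_of_nonneg e1, Int.toNat_of_nonneg e2, Int.toNat_of_nonneg e3,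
          Int.toNat_of_nonneg e4, Int.toNat_of_nonneg (show (0 : ℤ) ≤ a by omega),
          Int.toNat_of_nonneg (show (0 : ℤ) ≤ b by omega),
          Int.toNat_of_nonneg (show (0 : ℤ) ≤ d by omega)]
        exact e6
      exact_mod_cast this
  rw [hn]
  exact_mod_cast le_nn hA hB

/-- The lower bound: `liminf n(h,4)/h^4 ≥ cst v` for every `v` in `(0.9, 1)`. -/
theorem liminf_ge {v : ℝ} (hv1 : 0.9 < v) (hv2 : v < 1) (c : ℝ) (hc : c < cst v) :
    ∀ᶠ h : ℕ in atTop, c < (nn h 4 : ℝ) / (h : ℝ) ^ 4 := by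
  -- the parameters
  have hf1 : Tendsto (fun h : ℕ => ((⌊(1 / 40 : ℝ) * (h : ℝ)⌋₊ : ℕ) : ℝ) / (h : ℝ)) atTop
      (𝓝 (1 / 40)) :=
    (tendsto_nat_floor_mul_div_atTop (R := ℝ) (a := 1 / 40) (by norm_num)).comp
      tendsto_natCast_atTop_atTop
  have hf2 : Tendsto (fun h : ℕ => ((⌊(v / 240 : ℝ) * (h : ℝ)⌋₊ : ℕ) : ℝ) / (h : ℝ)) atTop
      (𝓝 (v / 240)) :=
    (tendsto_nat_floor_mul_div_atTop (R := ℝ) (a := v / 240) (by linarith)).comp
      tendsto_natCast_atTop_atTop
  have hinv : Tendsto (fun h : ℕ => 1 / (h : ℝ)) atTop (𝓝 0) := tendsto_one_div_atTop_nhds_zero_nat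
  set G : ℕ → ℤ := fun h => (⌊(1 / 40 : ℝ) * (h : ℝ)⌋₊ : ℤ) - 5 with hG
  set E : ℕ → ℤ := fun h => (⌊(v / 240 : ℝ) * (h : ℝ)⌋₊ : ℤ) with hE
  have hg : Tendsto (fun h : ℕ => (G h : ℝ) / (h : ℝ)) atTop (𝓝 (1 / 40)) := by
    have := hf1.sub (hinv.const_mul 5)
    rw [mul_zero, sub_zero] at this
    refine this.congr (fun h => ?_)
    simp only [hG]
    push_cast
    ring
  have he : Tendsto (fun h : ℕ => (E h : ℝ) / (h : ℝ)) atTop (𝓝 (v / 240)) := by
    refine hf2.congr (fun h => ?_)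
    simp only [hE]
    push_cast
    ring
  -- the limit
  have hlim : Tendsto (fun h : ℕ => (low (G h) (E h) : ℝ) / (h : ℝ) ^ 4) atTop (𝓝 (cst v)) := by
    have h1 := ((((hg.const_mul 25).sub (he.const_mul 90)).mul
      (((he.const_mul 40).mul ((((hg.const_mul 5).add (he.const_mul 30)).mul
        ((hg.const_mul 35).sub (he.const_mul 30))).add
          (((hg.const_mul 18).sub (he.const_mul 28)).mul hinv))).add
            (((hg.sub (he.const_mul 26)).mul ((hg.const_mul 35).sub (he.const_mul 30))).mul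
              hinv)|>.add ((((hg.const_mul 13).sub (he.const_mul 18)).mul hinv).mul hinv))))
    have h2 : (25 * (1 / 40 : ℝ) - 90 * (v / 240)) * (40 * (v / 240) * ((5 * (1 / 40) + 30 * (v / 240))
        * (35 * (1 / 40) - 30 * (v / 240)) + (18 * (1 / 40) - 28 * (v / 240)) * 0) +
          (1 / 40 - 26 * (v / 240)) * (35 * (1 / 40) - 30 * (v / 240)) * 0 +
            (13 * (1 / 40) - 18 * (v / 240)) * 0 * 0) = cst v := by
      unfold cst; ring
    rw [h2] at h1
    refine h1.congr' ?_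
    filter_upwards [eventually_gt_atTop 0] with h hh
    have hh' : (h : ℝ) ≠ 0 := by positivity
    simp only [low]
    push_cast
    field_simp
  -- conditions
  have c1 : ∀ᶠ h : ℕ in atTop, 100 ≤ G h := by
    have : Tendsto (fun h : ℕ => (G h : ℝ)) atTop atTop := by
      have h1 : Tendsto (fun h : ℕ => ((G h : ℝ) / (h : ℝ)) * (h : ℝ)) atTop atTop :=
        hg.pos_mul_atTop (by norm_num) tendsto_natCast_atTop_atTop
      refine h1.congr' ?_
      filter_upwards [eventually_gt_atTop 0] with h hh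
      have hh' : (h : ℝ) ≠ 0 := by positivity
      field_simp
    filter_upwards [this.eventually_ge_atTop 100] with h hh
    exact_mod_cast hh
  have c2 : ∀ᶠ h : ℕ in atTop, 7 * G h ≤ 50 * E h := by
    have := (hg.const_mul 7).eventually_lt (he.const_mul 50) (by linarith)
    filter_upwards [this, eventually_gt_atTop 0] with h hh hp
    have hp' : (0 : ℝ) < h := by exact_mod_cast hp
    have h3 : (7 * (G h : ℝ)) / h < (50 * (E h : ℝ)) / h := by
      rw [mul_div_assoc, mul_div_assoc]; exact hh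
    have h4 : (7 * (G h : ℝ)) < (50 * (E h : ℝ)) := (div_lt_div_iff_of_pos_right hp').1 h3
    exact_mod_cast h4.le
  have c3 : ∀ᶠ h : ℕ in atTop, 6 * E h ≤ G h := by
    have := (he.const_mul 6).eventually_lt hg (by linarith)
    filter_upwards [this, eventually_gt_atTop 0] with h hh hp
    have hp' : (0 : ℝ) < h := by exact_mod_cast hp
    have h3 : (6 * (E h : ℝ)) / h < (G h : ℝ) / h := by
      rw [mul_div_assoc]; exact hh
    have h4 : (6 * (E h : ℝ)) < (G h : ℝ) := (div_lt_div_iff_of_pos_right hp').1 h3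
    exact_mod_cast h4.le
  have c4 : ∀ h : ℕ, 40 * G h + 200 ≤ h := by
    intro h
    have h1 : ((⌊(1 / 40 : ℝ) * (h : ℝ)⌋₊ : ℕ) : ℝ) ≤ (1 / 40 : ℝ) * h :=
      Nat.floor_le (by positivity)
    have h2 : (40 * ((⌊(1 / 40 : ℝ) * (h : ℝ)⌋₊ : ℕ) : ℝ)) ≤ h := by linarith
    have h3 : 40 * (⌊(1 / 40 : ℝ) * (h : ℝ)⌋₊ : ℤ) ≤ h := by exact_mod_cast h2
    simp only [hG]
    omega
  filter_upwards [c1, c2, c3, hlim.eventually (lt_mem_nhds hc), eventually_gt_atTop 0]
    with h d1 d2 d3 d4 d5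
  have hp' : (0 : ℝ) < h := by exact_mod_cast d5
  refine d4.trans_le ?_
  rw [div_le_div_iff_of_pos_right (by positivity)]
  exact_mod_cast low_le_nn (G h) (E h) d1 d2 d3 h (c4 h)

end PS
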