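import Pool.Agent.helper46.PS.Limit
import Pool.Agent.helper46.PS.Lower
import Pool.Agent.helper46.PS.Irr

/-!
# MP_da66b4_nt: assembly, conditional on the continuous upper bound
-/

namespace PS

open Filter Topology Polynomial

/-- the continuous upper bound -/
def Upper (C : ℝ) : Prop :=
  ∀ al s rho t u om mu : ℝ, 0 < al → 0 ≤ s → s ≤ al → 0 < rho → 0 ≤ t → t ≤ al → 0 ≤ u → u ≤ rho →
    0 < om → al + rho ≤ 1 → Covers al s rho t u om mu → (1 - mu) * al * rho * om ≤ C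

theorem cst_pos {v : ℝ} (hv1 : 0.9 < v) (hv2 : v < 1) : 0 < cst v := by
  unfold cst
  have h1 : 0 < 5 - 3 * v := by linarith
  have h2 : 0 < 7 - v := by linarith
  have h3 : 0 < 1 + v := by linarith
  have h4 : 0 < v := by linarith
  positivity

theorem limsup_le {C : ℝ} (hC : 0 ≤ C) (hup : Upper C) (c : ℝ) (hc : C < c) :
    ∀ᶠ h : ℕ in atTop, (nn h 4 : ℝ) / (h : ℝ) ^ 4 < c := by
  by_contra hcon
  have hc0 : 0 < c := lt_of_le_of_lt hC hc
  rw [not_eventually] at hcon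
  -- `(h+1)^3 ≤ c h^4` for large `h`
  have hbig : ∀ᶠ h : ℕ in atTop, ((h + 1) ^ 3 : ℝ) ≤ c * (h : ℝ) ^ 4 := by
    have h1 : Tendsto (fun h : ℕ => c * (h : ℝ)) atTop atTop :=
      tendsto_natCast_atTop_atTop.const_mul_atTop hc0
    filter_upwards [h1.eventually_ge_atTop 8, eventually_ge_atTop 1] with h h2 h3
    have h4 : (1 : ℝ) ≤ h := by exact_mod_cast h3
    have h5 : ((h : ℝ) + 1) ^ 3 ≤ (2 * h) ^ 3 := by
      apply pow_le_pow_left₀ (by positivity)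
      linarith
    have h6 : 8 * (h : ℝ) ^ 3 ≤ c * h * (h : ℝ) ^ 3 :=
      mul_le_mul_of_nonneg_right h2 (by positivity)
    calc ((h : ℝ) + 1) ^ 3 ≤ (2 * h) ^ 3 := h5
      _ = 8 * (h : ℝ) ^ 3 := by ring
      _ ≤ c * h * (h : ℝ) ^ 3 := h6
      _ = c * (h : ℝ) ^ 4 := by ring
  have hfr := hcon.and_eventually (hbig.and (eventually_ge_atTop 1))
  obtain ⟨φ, hφ, hP⟩ := extraction_of_frequently_atTop hfr
  have hn : ∀ m, c * ((φ m : ℕ) : ℝ) ^ 4 ≤ nn (φ m) 4 := by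
    intro m
    obtain ⟨h1, h2, h3⟩ := hP m
    have h4 : (0 : ℝ) < φ m := by exact_mod_cast h3
    push Not at h1
    rwa [le_div_iff₀ (by positivity)] at h1
  have hex : ∀ m, ∃ a b d q r w u t : ℕ, Dat (φ m) (nn (φ m) 4) a b d q r w u t := by
    intro m
    obtain ⟨h1, h2, h3⟩ := hP m
    obtain ⟨A, hA, hB⟩ := nn_spec (φ m) 4
    refine exists_dat (by omega) hA hB ?_
    have h4 : (((φ m + 1) ^ 3 : ℕ) : ℝ) ≤ nn (φ m) 4 := by
      push_cast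
      exact h2.trans (hn m)
    exact_mod_cast h4
  choose a b d q r w u t hD using hex
  obtain ⟨al, s, rho, t', u', om, mu, e1, e2, e3, e4, e5, e6, e7, e8, e9, e10, e11, e12⟩ :=
    limit_params φ (fun m => nn (φ m) 4) a b d q r w u t hD hφ.tendsto_atTop c hc0 hn
  have := hup al s rho t' u' om mu e1 e2 e3 e4 e5 e6 e7 e8 e9 e10 e11
  linarith

theorem tendsto_nn {v : ℝ} (hv : IsV v) (hup : Upper (cst v)) :
    Tendsto (fun h : ℕ => (nn h 4 : ℝ) / (h : ℝ) ^ 4) atTop (𝓝 (cst v)) := by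
  have h1 : (0.9 : ℝ) < v := by have := hv.1; linarith
  have h2 : v < 1 := by have := hv.2.1; linarith
  rw [tendsto_order]
  exact ⟨fun c hc => liminf_ge h1 h2 c hc, fun c hc => limsup_le (cst_pos h1 h2).le hup c hc⟩

/-- the final statement, conditional on the continuous upper bound -/
theorem final (hup : ∀ v, IsV v → Upper (cst v)) :
    (∀ h k : ℕ, IsGreatest {n : ℕ | ∃ A : Finset ℕ, A.card = k ∧ IsBasis h A n} (nn h k)) ∧
    (∃ v : ℝ, IsV v ∧ Tendsto (fun h : ℕ => (nn h 4 : ℝ) / (h : ℝ) ^ 4) atTop (𝓝 (cst v)) ∧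
      Irrational (cst v)) ∧
    (∀ S : Set ℝ[X], S.Finite → ∀ h0 : ℕ, ∃ h ≥ h0, ∀ P ∈ S, (nn h 4 : ℝ) ≠ P.eval (h : ℝ)) ∧
    ¬ (∀ k : ℕ, 1 ≤ k → ∃ (h0 : ℕ) (S : Set ℝ[X]), S.Finite ∧ (∀ P ∈ S, P.natDegree = k) ∧
      ∀ h ≥ h0, ∃ P ∈ S, (nn h k : ℝ) = P.eval (h : ℝ)) := by
  obtain ⟨v, hv⟩ := exists_isV
  have hlim := tendsto_nn hv (hup v hv)
  have hirr := cst_irrational hv
  have hno : ∀ S : Set ℝ[X], S.Finite → ∀ h0 : ℕ, ∃ h ≥ h0, ∀ P ∈ S,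
      (nn h 4 : ℝ) ≠ P.eval (h : ℝ) := by
    intro S hS h0
    have := no_poly hlim hirr S hS
    rw [Filter.frequently_atTop] at this
    exact this h0
  refine ⟨nn_isGreatest, ⟨v, hv, hlim, hirr⟩, hno, ?_⟩
  intro hall
  obtain ⟨h0, S, hS, _, hval⟩ := hall 4 (by norm_num)
  obtain ⟨h, hh, hne⟩ := hno S hS h0
  obtain ⟨P, hP, he⟩ := hval h hh
  exact hne P hP he

end PS
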