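import Pool.Agent.helper46.PS.Defs

/-!
# MP_da66b4_nt: the reduction lemmas for the lower bound
-/

namespace PS

/-- a lattice vector to subtract, in dimension three -/
theorem block3 (G E : ℤ) (hG : 0 < G) (h1 : 7 * G ≤ 50 * E) (h2 : 6 * E ≤ G)
    (x y z : ℤ) (hx : 0 ≤ x) (hy : 0 ≤ y) (hz : 0 ≤ z) (hs : 15 * G + 90 * E < x + y + z) :
    ∃ i j k : ℤ, (-2 ≤ i ∧ i ≤ 2) ∧ (-2 ≤ j ∧ j ≤ 2) ∧ (-4 ≤ k ∧ k ≤ 4) ∧
      0 ≤ x - (i * (35 * G - 30 * E) + j * (18 * G - 28 * E) + k * (13 * G - 18 * E)) ∧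
      0 ≤ y - (j * (5 * G + 30 * E) + k * (G - 26 * E)) ∧
      0 ≤ z - k * (40 * E) ∧
      2 * G ≤ (i * (35 * G - 30 * E) + j * (18 * G - 28 * E) + k * (13 * G - 18 * E)) +
        (j * (5 * G + 30 * E) + k * (G - 26 * E)) + k * (40 * E) := by
  by_cases c1 : 160 * E ≤ z
  · exact ⟨-2, 1, 4, by omega, by omega, by omega, by omega, by omega, by omega, by omega⟩
  by_cases c2 : 120 * E ≤ z
  · by_cases c3 : 8 * G - 48 * E ≤ y
    · exact ⟨-2, 1, 3, by omega, by omega, by omega, by omega, by omega, by omega, by omega⟩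
    · exact ⟨-1, 0, 3, by omega, by omega, by omega, by omega, by omega, by omega, by omega⟩
  by_cases c3 : 80 * E ≤ z
  · by_cases c4 : 8 * G - 8 * E ≤ x
    · exact ⟨0, -1, 2, by omega, by omega, by omega, by omega, by omega, by omega, by omega⟩
    by_cases c5 : 6 * G + 4 * E ≤ y
    · exact ⟨-1, 1, 1, by omega, by omega, by omega, by omega, by omega, by omega, by omega⟩
    · exact ⟨-1, 1, 2, by omega, by omega, by omega, by omega, by omega, by omega, by omega⟩
  by_cases c4 : 40 * E ≤ z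
  · by_cases c5 : 13 * G - 18 * E ≤ x
    · exact ⟨0, 0, 1, by omega, by omega, by omega, by omega, by omega, by omega, by omega⟩
    by_cases c6 : 6 * G + 4 * E ≤ y
    · exact ⟨-1, 1, 1, by omega, by omega, by omega, by omega, by omega, by omega, by omega⟩
    · exact ⟨1, 0, -2, by omega, by omega, by omega, by omega, by omega, by omega, by omega⟩
  by_cases c5 : 17 * G - 2 * E ≤ x
  · exact ⟨1, -1, 0, by omega, by omega, by omega, by omega, by omega, by omega, by omega⟩
  by_cases c6 : 10 * G + 60 * E ≤ y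
  · exact ⟨-1, 2, 0, by omega, by omega, by omega, by omega, by omega, by omega, by omega⟩
  by_cases c7 : 4 * G + 56 * E ≤ y
  · exact ⟨0, 1, -1, by omega, by omega, by omega, by omega, by omega, by omega, by omega⟩
  · exact ⟨1, 0, -2, by omega, by omega, by omega, by omega, by omega, by omega, by omega⟩

/-- reduction in dimension three -/
theorem red3 (G E : ℤ) (hG : 0 < G) (h1 : 7 * G ≤ 50 * E) (h2 : 6 * E ≤ G) (N : ℕ) :
    ∀ x y z : ℤ, 0 ≤ x → 0 ≤ y → 0 ≤ z → x + y + z ≤ 15 * G + 90 * E + N * (2 * G) →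
    ∃ i j k : ℤ, (-(4 * N) ≤ i ∧ i ≤ 4 * N) ∧ (-(4 * N) ≤ j ∧ j ≤ 4 * N) ∧
      (-(4 * N) ≤ k ∧ k ≤ 4 * N) ∧
      0 ≤ x - (i * (35 * G - 30 * E) + j * (18 * G - 28 * E) + k * (13 * G - 18 * E)) ∧
      0 ≤ y - (j * (5 * G + 30 * E) + k * (G - 26 * E)) ∧
      0 ≤ z - k * (40 * E) ∧
      (x - (i * (35 * G - 30 * E) + j * (18 * G - 28 * E) + k * (13 * G - 18 * E))) +
        (y - (j * (5 * G + 30 * E) + k * (G - 26 * E))) + (z - k * (40 * E)) ≤
          15 * G + 90 * E := by
  induction N with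
  | zero =>
    intro x y z hx hy hz hs
    refine ⟨0, 0, 0, by simp, by simp, by simp, by simpa using hx, by simpa using hy,
      by simpa using hz, ?_⟩
    simpa using hs
  | succ N ih =>
    intro x y z hx hy hz hs
    by_cases hc : x + y + z ≤ 15 * G + 90 * E
    · refine ⟨0, 0, 0, by constructor <;> push_cast <;> omega,
        by constructor <;> push_cast <;> omega, by constructor <;> push_cast <;> omega,
        by simpa using hx, by simpa using hy,
        by simpa using hz, ?_⟩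
      simpa using hc
    · obtain ⟨i, j, k, hi, hj, hk, e1, e2, e3, e4⟩ :=
        block3 G E hG h1 h2 x y z hx hy hz (by omega)
      obtain ⟨i', j', k', hi', hj', hk', f1, f2, f3, f4⟩ := ih _ _ _ e1 e2 e3 (by
        push_cast at hs
        linarith)
      refine ⟨i + i', j + j', k + k', by constructor <;> push_cast <;> omega,
        by constructor <;> push_cast <;> omega, by constructor <;> push_cast <;> omega,
        by linarith, by linarith, by linarith, by linarith⟩

/-- a lattice vector to subtract, in dimension two -/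
theorem block2 (G E : ℤ) (hG : 0 < G) (h1 : 7 * G ≤ 50 * E) (h2 : 6 * E ≤ G)
    (x y : ℤ) (hx : 0 ≤ x) (hy : 0 ≤ y) (hs : 28 * G + 32 * E < x + y) :
    ∃ i j : ℤ, (-2 ≤ i ∧ i ≤ 2) ∧ (-2 ≤ j ∧ j ≤ 2) ∧
      0 ≤ x - (i * (35 * G - 30 * E) + j * (18 * G - 28 * E)) ∧
      0 ≤ y - (j * (5 * G + 30 * E)) ∧
      2 * G ≤ (i * (35 * G - 30 * E) + j * (18 * G - 28 * E)) + (j * (5 * G + 30 * E)) := by
  by_cases c1 : 17 * G - 2 * E ≤ x
  · exact ⟨1, -1, by omega, by omega, by omega, by omega, by omega⟩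
  by_cases c2 : 10 * G + 60 * E ≤ y
  · exact ⟨-1, 2, by omega, by omega, by omega, by omega, by omega⟩
  · exact ⟨0, 1, by omega, by omega, by omega, by omega, by omega⟩

/-- reduction in dimension two -/
theorem red2 (G E : ℤ) (hG : 0 < G) (h1 : 7 * G ≤ 50 * E) (h2 : 6 * E ≤ G) (N : ℕ) :
    ∀ x y : ℤ, 0 ≤ x → 0 ≤ y → x + y ≤ 28 * G + 32 * E + N * (2 * G) →
    ∃ i j : ℤ, (-(4 * N) ≤ i ∧ i ≤ 4 * N) ∧ (-(4 * N) ≤ j ∧ j ≤ 4 * N) ∧
      0 ≤ x - (i * (35 * G - 30 * E) + j * (18 * G - 28 * E)) ∧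
      0 ≤ y - (j * (5 * G + 30 * E)) ∧
      (x - (i * (35 * G - 30 * E) + j * (18 * G - 28 * E))) +
        (y - (j * (5 * G + 30 * E))) ≤ 28 * G + 32 * E := by
  induction N with
  | zero =>
    intro x y hx hy hs
    refine ⟨0, 0, by simp, by simp, by simpa using hx, by simpa using hy, ?_⟩
    simpa using hs
  | succ N ih =>
    intro x y hx hy hs
    by_cases hc : x + y ≤ 28 * G + 32 * E
    · refine ⟨0, 0, by constructor <;> push_cast <;> omega,
        by constructor <;> push_cast <;> omega,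
        by simpa using hx, by simpa using hy, ?_⟩
      simpa using hc
    · obtain ⟨i, j, hi, hj, e1, e2, e4⟩ :=
        block2 G E hG h1 h2 x y hx hy (by omega)
      obtain ⟨i', j', hi', hj', f1, f2, f4⟩ := ih _ _ e1 e2 (by
        push_cast at hs
        linarith)
      refine ⟨i + i', j + j', by constructor <;> push_cast <;> omega,
        by constructor <;> push_cast <;> omega,
        by linarith, by linarith, by linarith⟩

end PS
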