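import Pool.Agent.helper46.PS.Red

/-!
# MP_da66b4_nt: the explicit bases
-/

namespace PS

theorem rep_family (G E : ℤ) (hG : 100 ≤ G) (h1 : 7 * G ≤ 50 * E) (h2 : 6 * E ≤ G)
    (a b d q r w u t : ℤ) (ha : a = 35 * G - 30 * E) (hq : q = 5 * G + 30 * E)
    (hr : r = 18 * G - 28 * E) (hw : w = 40 * E) (hu : u = G - 26 * E) (ht : t = 13 * G - 18 * E)
    (hb : b = q * a + r) (hd : d = w * b + u * a + t)
    (m : ℤ) (hm0 : 0 ≤ m) (hm : m ≤ (25 * G - 90 * E) * d) :
    ∃ x1 x2 x3 x4 : ℤ, 0 ≤ x1 ∧ 0 ≤ x2 ∧ 0 ≤ x3 ∧ 0 ≤ x4 ∧ x1 + x2 + x3 + x4 ≤ 40 * G + 200 ∧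
      x1 + a * x2 + b * x3 + d * x4 = m := by
  have ha0 : 0 < a := by omega
  have hq0 : 0 < q := by omega
  have hr0 : 0 ≤ r := by omega
  have hra : r < a := by omega
  have ht0 : 0 ≤ t := by omega
  have hta : t < a := by omega
  have hqa : a ≤ q * a := by nlinarith
  have hb0 : 0 < b := by linarith
  have hab : a ≤ b := by linarith
  have hu0 : u ≤ 0 := by omega
  have huq : -q ≤ u := by omega
  have hua : -b ≤ u * a := by
    have : -q * a ≤ u * a := mul_le_mul_of_nonneg_right huq ha0.le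
    linarith
  have hua' : u * a ≤ 0 := mul_nonpos_of_nonpos_of_nonneg hu0 ha0.le
  have hw0 : 100 ≤ w := by omega
  have hwb : 100 * b ≤ w * b := mul_le_mul_of_nonneg_right hw0 hb0.le
  have hd1 : 99 * b ≤ d := by linarith
  have hd0 : 0 < d := by linarith
  have hd2 : d ≤ w * b + t := by linarith
  -- digit bounds
  have key1 : ∀ M : ℤ, 0 ≤ M → M < b → 0 ≤ M % a ∧ M % a < a ∧ 0 ≤ M / a ∧ M / a ≤ q := by
    intro M hM0 hMb
    refine ⟨Int.emod_nonneg _ ha0.ne', Int.emod_lt_of_pos _ ha0, Int.ediv_nonneg hM0 ha0.le, ?_⟩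
    have : M / a < q + 1 := by
      apply Int.ediv_lt_of_lt_mul ha0
      linarith
    omega
  have key2 : ∀ M : ℤ, 0 ≤ M → M < d → 0 ≤ M % b ∧ M % b < b ∧ 0 ≤ M / b ∧ M / b ≤ w := by
    intro M hM0 hMb
    refine ⟨Int.emod_nonneg _ hb0.ne', Int.emod_lt_of_pos _ hb0, Int.ediv_nonneg hM0 hb0.le, ?_⟩
    have : M / b < w + 1 := by
      apply Int.ediv_lt_of_lt_mul hb0
      linarith
    omega
  by_cases hA : 40 * d ≤ m - 40 * a - 40 * b
  · -- main case
    set M := m - 40 * a - 40 * b with hM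
    have e1 : d * (M / d) + M % d = M := Int.mul_ediv_add_emod M d
    have e2 : 0 ≤ M % d := Int.emod_nonneg _ hd0.ne'
    have e3 : M % d < d := Int.emod_lt_of_pos _ hd0
    obtain ⟨f1, f2, f3, f4⟩ := key2 _ e2 e3
    have e4 : b * (M % d / b) + M % d % b = M % d := Int.mul_ediv_add_emod _ b
    obtain ⟨g1, g2, g3, g4⟩ := key1 _ f1 f2
    have e5 : a * (M % d % b / a) + M % d % b % a = M % d % b := Int.mul_ediv_add_emod _ a
    have hx4 : 40 ≤ M / d := by
      rw [Int.le_ediv_iff_mul_le hd0]; exact hA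
    have hx4' : M / d ≤ 25 * G - 90 * E := by
      have : M / d < 25 * G - 90 * E + 1 := by
        apply Int.ediv_lt_of_lt_mul hd0
        nlinarith
      omega
    generalize M / d = x4 at *
    generalize M % d / b = z at *
    generalize M % d % b / a = y at *
    generalize M % d % b % a = x at *
    obtain ⟨i, j, k, hi, hj, hk, k1, k2, k3, k4⟩ := red3 G E (by omega) h1 h2 10 x y z g1 g3 f3
      (by push_cast; omega)
    rw [← ha, ← hr, ← ht] at k1
    rw [← hq, ← hu] at k2
    rw [← hw] at k3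
    rw [← ha, ← hr, ← ht, ← hq, ← hu, ← hw] at k4
    push_cast at hi hj hk
    refine ⟨x - (i * a + j * r + k * t), y - (j * q + k * u) + i + 40, z - k * w + j + 40, x4 + k,
      k1, by linarith [hi.1], by linarith [hj.1], by linarith [hk.1], ?_, ?_⟩
    · linarith [hi.2, hj.2, hk.2]
    · have h5 : b - (q * a + r) = 0 := by linarith
      have h6 : d - (w * b + u * a + t) = 0 := by linarith
      have : x + a * y + b * z + d * x4 = m - 40 * a - 40 * b := by linarith
      have h3 : (x - (i * a + j * r + k * t)) + a * (y - (j * q + k * u) + i + 40) +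
        b * (z - k * w + j + 40) + d * (x4 + k) = (x + a * y + b * z + d * x4) + 40 * a + 40 * b +
          j * (b - (q * a + r)) + k * (d - (w * b + u * a + t)) := by ring
      rw [h3, this, h5, h6]
      ring
  · -- small values
    have hm1 : m < 41 * d := by linarith
    have e1 : d * (m / d) + m % d = m := Int.mul_ediv_add_emod m d
    have e2 : 0 ≤ m % d := Int.emod_nonneg _ hd0.ne'
    have e3 : m % d < d := Int.emod_lt_of_pos _ hd0
    have hx4 : 0 ≤ m / d := Int.ediv_nonneg hm0 hd0.le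
    have hx4' : m / d ≤ 40 := by
      have : m / d < 41 := Int.ediv_lt_of_lt_mul hd0 (by linarith)
      omega
    generalize m / d = x4 at *
    generalize m % d = m0 at *
    by_cases hB : 40 * b ≤ m0 - 40 * a
    · set M := m0 - 40 * a with hM
      have e4 : b * (M / b) + M % b = M := Int.mul_ediv_add_emod _ b
      obtain ⟨f1, f2, f3, f4⟩ := key2 M (by linarith) (by linarith)
      have e5 : a * (M % b / a) + M % b % a = M % b := Int.mul_ediv_add_emod _ a
      obtain ⟨g1, g2, g3, g4⟩ := key1 _ f1 f2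
      have hz4 : 40 ≤ M / b := by
        rw [Int.le_ediv_iff_mul_le hb0]; exact hB
      generalize M / b = z at *
      generalize M % b / a = y at *
      generalize M % b % a = x at *
      obtain ⟨i, j, hi, hj, k1, k2, k4⟩ := red2 G E (by omega) h1 h2 10 x y g1 g3
        (by push_cast; omega)
      rw [← ha, ← hr] at k1
      rw [← hq] at k2
      rw [← ha, ← hr, ← hq] at k4
      push_cast at hi hj
      refine ⟨x - (i * a + j * r), y - (j * q) + i + 40, z + j, x4,
        k1, by linarith [hi.1], by linarith [hj.1], hx4, ?_, ?_⟩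
      · linarith [hi.2, hj.2]
      · have h3 : (x - (i * a + j * r)) + a * (y - (j * q) + i + 40) +
          b * (z + j) + d * x4 = (x + a * y + b * z + d * x4) + 40 * a +
            j * (b - (q * a + r)) := by ring
        have h4 : b - (q * a + r) = 0 := by linarith
        rw [h3, h4]
        linarith
    · obtain ⟨f1, f2, f3, f4⟩ := key2 m0 e2 e3
      have e4 : b * (m0 / b) + m0 % b = m0 := Int.mul_ediv_add_emod _ b
      have e5 : a * (m0 % b / a) + m0 % b % a = m0 % b := Int.mul_ediv_add_emod _ a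
      obtain ⟨g1, g2, g3, g4⟩ := key1 _ f1 f2
      have hz4 : m0 / b ≤ 80 := by
        have : m0 / b < 81 := Int.ediv_lt_of_lt_mul hb0 (by linarith)
        omega
      exact ⟨m0 % b % a, m0 % b / a, m0 / b, x4, g1, g3, f3, hx4, by omega, by linarith⟩

end PS
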