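import Pool.Agent.helper46.PS.Basic

/-!
# MP_da66b4_nt: the structure of a large `h`-basis with four elements
-/

namespace PS

/-- the data of a basis `{1, a, b, d}` -/
structure Dat (h n a b d q r w u t : ℕ) : Prop where
  h0 : 0 < h
  a1 : 1 < a
  ab : a < b
  bd : b < d
  dn : d ≤ n
  ah : a ≤ h + 1
  eb : b = q * a + r
  ra : r < a
  q0 : 1 ≤ q
  ed : d = w * b + u * a + t
  ta : t < a
  uq : u ≤ q
  w0 : 1 ≤ w
  aq : a + q ≤ h + 2
  db : d ≤ h * b + 1
  nd : n ≤ h * d
  Rb : u * a + t < b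
  cov : ∀ M : ℤ, ∃ x1 x2 x3 : ℕ, ∃ k : ℤ, (x1 : ℤ) + a * x2 + b * x3 = M + k * d ∧
    x1 + x2 + x3 ≤ h ∧ d * (x1 + x2 + x3) + n ≤ d * h + b * h + d

theorem IsBasis.filter_le {h n : ℕ} {A : Finset ℕ} (hb : IsBasis h A n) :
    IsBasis h (A.filter (· ≤ n)) n := by
  refine ⟨fun a ha => hb.1 a (Finset.mem_filter.1 ha).1, fun m hm => ?_⟩
  obtain ⟨s, h1, h2, h3⟩ := hb.2 m hm
  refine ⟨s, fun x hx => Finset.mem_filter.2 ⟨h1 x hx, ?_⟩, h2, h3⟩
  have := Multiset.le_sum_of_mem hx
  omega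

theorem one_mem_of_isBasis {h n : ℕ} {A : Finset ℕ} (hb : IsBasis h A n) (hn : 1 ≤ n) : 1 ∈ A := by
  obtain ⟨s, h1, h2, h3⟩ := hb.2 1 hn
  by_cases hs : s = 0
  · subst hs; simp at h3
  · obtain ⟨x, hx⟩ := Multiset.exists_mem_of_ne_zero hs
    have e1 := Multiset.le_sum_of_mem hx
    have e2 := hb.1 x (h1 x hx)
    have : x = 1 := by omega
    rw [← this]
    exact h1 x hx

theorem exists_sorted {h n : ℕ} {A : Finset ℕ} (hA : A.card = 4) (hb : IsBasis h A n) (hn : 1 ≤ n) :
    ∃ a b d : ℕ, 1 < a ∧ a < b ∧ b < d ∧ A = {1, a, b, d} := by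
  have h1 := one_mem_of_isBasis hb hn
  have hc : (A.erase 1).card = 3 := by rw [Finset.card_erase_of_mem h1, hA]
  obtain ⟨x, y, z, hxy, hxz, hyz, hE⟩ := Finset.card_eq_three.1 hc
  have hA' : A = {1, x, y, z} := by
    rw [← Finset.insert_erase h1, hE]
  have hx : x ∈ A.erase 1 := by rw [hE]; simp
  have hy : y ∈ A.erase 1 := by rw [hE]; simp
  have hz : z ∈ A.erase 1 := by rw [hE]; simp
  have gx : 1 < x := by
    have e1 := hb.1 x (Finset.mem_of_mem_erase hx)
    have e2 := Finset.ne_of_mem_erase hx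
    omega
  have gy : 1 < y := by
    have e1 := hb.1 y (Finset.mem_of_mem_erase hy)
    have e2 := Finset.ne_of_mem_erase hy
    omega
  have gz : 1 < z := by
    have e1 := hb.1 z (Finset.mem_of_mem_erase hz)
    have e2 := Finset.ne_of_mem_erase hz
    omega
  have key : ∀ x y z : ℕ, 1 < x → x < y → y < z → (∀ w, w ∈ A ↔ w = 1 ∨ w = x ∨ w = y ∨ w = z) →
      ∃ a b d : ℕ, 1 < a ∧ a < b ∧ b < d ∧ A = {1, a, b, d} := by
    intro x y z h1 h2 h3 h4
    refine ⟨x, y, z, h1, h2, h3, ?_⟩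
    ext w
    simp [h4]
  have hm : ∀ w, w ∈ A ↔ w = 1 ∨ w = x ∨ w = y ∨ w = z := by
    intro w; rw [hA']; simp
  rcases lt_or_gt_of_ne hxy with c1 | c1 <;> rcases lt_or_gt_of_ne hxz with c2 | c2 <;>
    rcases lt_or_gt_of_ne hyz with c3 | c3
  · exact key x y z gx c1 c3 hm
  · exact key x z y gx c2 c3 (fun w => by rw [hm]; tauto)
  · omega
  · exact key z x y gz c2 c1 (fun w => by rw [hm]; tauto)
  · exact key y x z gy c1 c2 (fun w => by rw [hm]; tauto)
  · omega
  · exact key y z x gy c3 c2 (fun w => by rw [hm]; tauto)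
  · exact key z y x gz c3 c1 (fun w => by rw [hm]; tauto)

theorem exists_dat {h n : ℕ} {A : Finset ℕ} (h0 : 0 < h) (hA : A.card = 4) (hb : IsBasis h A n)
    (hn : (h + 1) ^ 3 ≤ n) : ∃ a b d q r w u t : ℕ, Dat h n a b d q r w u t := by
  have hn1 : 1 ≤ n := le_trans (Nat.one_le_pow _ _ (by omega)) hn
  obtain ⟨a, b, d, a1, ab, bd, rfl⟩ := exists_sorted hA hb hn1
  have hrep : ∀ m ≤ n, ∃ x1 x2 x3 x4 : ℕ, x1 + x2 + x3 + x4 ≤ h ∧
      x1 + a * x2 + b * x3 + d * x4 = m := fun m hm => four_of_isSum (hb.2 m hm)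
  have dn : d ≤ n := by
    by_contra hcon
    push Not at hcon
    have e1 := hb.filter_le
    have e2 : ({1, a, b, d} : Finset ℕ).filter (· ≤ n) ⊆ {1, a, b} := by
      intro x hx
      simp only [Finset.mem_filter, Finset.mem_insert, Finset.mem_singleton] at hx ⊢
      omega
    have e3 := isBasis_bound e1
    have e4 : (({1, a, b, d} : Finset ℕ).filter (· ≤ n)).card ≤ 3 :=
      (Finset.card_le_card e2).trans Finset.card_le_three
    have e5 : (h + 1) ^ (({1, a, b, d} : Finset ℕ).filter (· ≤ n)).card ≤ (h + 1) ^ 3 :=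
      Nat.pow_le_pow_right (by omega) e4
    omega
  have d0 : 0 < d := by omega
  have b0 : 0 < b := by omega
  have a0 : 0 < a := by omega
  have ah : a ≤ h + 1 := by
    obtain ⟨x1, x2, x3, x4, e1, e2⟩ := hrep (a - 1) (by omega)
    have f4 : x4 = 0 := by
      by_contra hne
      have : d * 1 ≤ d * x4 := Nat.mul_le_mul_left _ (by omega)
      omega
    have f3 : x3 = 0 := by
      by_contra hne
      have : b * 1 ≤ b * x3 := Nat.mul_le_mul_left _ (by omega)
      omega
    have f2 : x2 = 0 := by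
      by_contra hne
      have : a * 1 ≤ a * x2 := Nat.mul_le_mul_left _ (by omega)
      omega
    subst f2 f3 f4
    omega
  have eb : b = (b / a) * a + b % a := by
    have := Nat.div_add_mod b a
    rw [mul_comm] at this
    omega
  have q0 : 1 ≤ b / a := by
    rw [Nat.le_div_iff_mul_le a0]; omega
  have aq : a + b / a ≤ h + 2 := by
    set q := b / a with hq
    have hqa1 : a ≤ q * a := Nat.le_mul_of_pos_left a (by omega)
    obtain ⟨x1, x2, x3, x4, e1, e2⟩ := hrep (q * a - 1) (by omega)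
    have f4 : x4 = 0 := by
      by_contra hne
      have : d * 1 ≤ d * x4 := Nat.mul_le_mul_left _ (by omega)
      omega
    have f3 : x3 = 0 := by
      by_contra hne
      have : b * 1 ≤ b * x3 := Nat.mul_le_mul_left _ (by omega)
      omega
    subst f3 f4
    have f2 : x2 < q := by
      by_contra hne
      push Not at hne
      have : a * q ≤ a * x2 := Nat.mul_le_mul_left _ hne
      have h2 : a * q = q * a := mul_comm _ _
      omega
    obtain ⟨y, hy⟩ := Nat.exists_eq_add_of_lt f2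
    rw [hy] at e2 ⊢
    have e3 : x1 + 1 = a * (y + 1) := by
      have e4 : (x2 + y + 1) * a = a * x2 + a * (y + 1) := by ring
      rw [e4] at e2
      have : a * 1 ≤ a * (y + 1) := Nat.mul_le_mul_left _ (by omega)
      omega
    have e5 : a + y ≤ a * (y + 1) := by nlinarith
    omega
  have ed : d = (d / b) * b + d % b := by
    have := Nat.div_add_mod d b
    rw [mul_comm] at this
    omega
  have hR : d % b < b := Nat.mod_lt _ b0
  have eR : d % b = (d % b / a) * a + d % b % a := by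
    have := Nat.div_add_mod (d % b) a
    rw [mul_comm] at this
    omega
  have w0 : 1 ≤ d / b := by
    rw [Nat.le_div_iff_mul_le b0]; omega
  refine ⟨a, b, d, b / a, b % a, d / b, d % b / a, d % b % a,
    ⟨h0, a1, ab, bd, dn, ah, eb, Nat.mod_lt _ a0, q0, by omega, Nat.mod_lt _ a0,
      Nat.div_le_div_right hR.le, w0, aq, ?_, ?_, by omega, ?_⟩⟩
  · obtain ⟨x1, x2, x3, x4, e1, e2⟩ := hrep (d - 1) (by omega)
    have f4 : x4 = 0 := by
      by_contra hne
      have : d * 1 ≤ d * x4 := Nat.mul_le_mul_left _ (by omega)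
      omega
    subst f4
    have g1 : x1 ≤ b * x1 := Nat.le_mul_of_pos_left _ b0
    have g2 : a * x2 ≤ b * x2 := Nat.mul_le_mul_right _ ab.le
    have g3 : b * (x1 + x2 + x3) ≤ b * h := Nat.mul_le_mul_left _ (by omega)
    have g4 : b * (x1 + x2 + x3) = b * x1 + b * x2 + b * x3 := by ring
    have g5 : h * b = b * h := mul_comm _ _
    omega
  · obtain ⟨x1, x2, x3, x4, e1, e2⟩ := hrep n le_rfl
    have g1 : x1 ≤ d * x1 := Nat.le_mul_of_pos_left _ d0
    have g2 : a * x2 ≤ d * x2 := Nat.mul_le_mul_right _ (by omega)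
    have g2' : b * x3 ≤ d * x3 := Nat.mul_le_mul_right _ (by omega)
    have g3 : d * (x1 + x2 + x3 + x4) ≤ d * h := Nat.mul_le_mul_left _ (by omega)
    have g4 : d * (x1 + x2 + x3 + x4) = d * x1 + d * x2 + d * x3 + d * x4 := by ring
    have g5 : h * d = d * h := mul_comm _ _
    omega
  · intro M
    -- the number `m` in `(n - d, n]` congruent to `M` modulo `d`
    have hd0 : (0 : ℤ) < d := by exact_mod_cast d0
    set m' : ℤ := n - (n - M) % d with hm'
    have p1 : 0 ≤ ((n : ℤ) - M) % d := Int.emod_nonneg _ hd0.ne'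
    have p2 : ((n : ℤ) - M) % d < d := Int.emod_lt_of_pos _ hd0
    obtain ⟨m, hm⟩ := Int.eq_ofNat_of_zero_le (show 0 ≤ m' by omega)
    obtain ⟨x1, x2, x3, x4, e1, e2⟩ := hrep m (by omega)
    have p3 : (d : ℤ) * ((n - M) / d) + (n - M) % d = n - M := Int.mul_ediv_add_emod _ _
    refine ⟨x1, x2, x3, (n - M) / d - x4, ?_, by omega, ?_⟩
    · have e2' : (x1 : ℤ) + a * x2 + b * x3 + d * x4 = m := by exact_mod_cast e2
      have : (m : ℤ) = n - (n - M) % d := by rw [← hm', hm]
      rw [this] at e2'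
      linear_combination e2' - p3
    · have g1 : x1 ≤ b * x1 := Nat.le_mul_of_pos_left _ b0
      have g2 : a * x2 ≤ b * x2 := Nat.mul_le_mul_right _ ab.le
      have g3 : b * (x1 + x2 + x3) ≤ b * h := Nat.mul_le_mul_left _ (by omega)
      have g4 : b * (x1 + x2 + x3) = b * x1 + b * x2 + b * x3 := by ring
      have g5 : d * (x1 + x2 + x3 + x4) ≤ d * h := Nat.mul_le_mul_left _ (by omega)
      have g6 : d * (x1 + x2 + x3 + x4) = d * (x1 + x2 + x3) + d * x4 := by ring
      omega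

end PS
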